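import Pool.Agent.MP_f23db5_lc.Gadget

/-! A solution by permutations gives a solution of the network. -/

namespace Pool.Agent.MP_f23db5_lc

open Function Equiv

variable {S : Type} (σ : Gn → Perm S)

open Classical in
noncomputable def up0 : Nd → Nd → Option (Perm S)
  | (0, _), (3, g, _) => some (σ g)
  | (1, _), (3, _) => some 1
  | (1, _), (4, g, _) => some (σ g)
  | (2, _), (4, _) => some 1
  | (0, _), (5, g, _) => some (σ g)
  | (2, _), (5, _) => some 1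
  | (0, _), (6, _, _, k) => some (σ k)
  | (1, _), (6, _, h, _) => some (σ h)
  | (2, _), (6, _) => some 1
  | (3, a, _), (6, g, h, k) => if a = g ∧ σ k = σ h * σ g then some (σ h) else none
  | (4, a, _), (6, _, h, _) => if a = h then some 1 else none
  | (5, a, _), (6, _, _, k) => if a = k then some 1 else none
  | _, _ => none

theorem up0_cases {x y : Nd} {a : Perm S} (h : up0 σ x y = some a) :
    (x.1 = 0 ∧ y.1 = 3 ∧ a = σ y.2.1) ∨ (x.1 = 1 ∧ y.1 = 3 ∧ a = 1) ∨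
    (x.1 = 1 ∧ y.1 = 4 ∧ a = σ y.2.1) ∨ (x.1 = 2 ∧ y.1 = 4 ∧ a = 1) ∨
    (x.1 = 0 ∧ y.1 = 5 ∧ a = σ y.2.1) ∨ (x.1 = 2 ∧ y.1 = 5 ∧ a = 1) ∨
    (x.1 = 0 ∧ y.1 = 6 ∧ a = σ y.2.2.2) ∨ (x.1 = 1 ∧ y.1 = 6 ∧ a = σ y.2.2.1) ∨
    (x.1 = 2 ∧ y.1 = 6 ∧ a = 1) ∨
    (x.1 = 3 ∧ y.1 = 6 ∧ a = σ y.2.2.1 ∧ σ y.2.2.2 = σ y.2.2.1 * σ x.2.1) ∨
    (x.1 = 4 ∧ y.1 = 6 ∧ a = 1 ∧ x.2.1 = y.2.2.1) ∨
    (x.1 = 5 ∧ y.1 = 6 ∧ a = 1 ∧ x.2.1 = y.2.2.2) := by
  unfold up0 at h
  split at h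
  all_goals first
    | (cases h; simp)
    | (split_ifs at h with h1; cases h; simp [h1])
    | cases h

noncomputable def conn0 : Conn Nd (Perm S) where
  up := up0 σ
  rk x := x.1
  lt x y g h := by
    have := up0_cases σ h
    omega
  flat x y z a b c h1 h2 h3 := by
    rcases up0_cases σ h1 with h | h | h | h | h | h | h | h | h | h | h | h <;>
    rcases up0_cases σ h2 with k | k | k | k | k | k | k | k | k | k | k | k <;>
    first
    | omega
    | (rcases up0_cases σ h3 with l | l | l | l | l | l | l | l | l | l | l | l <;>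
        first
        | omega
        | simp_all)

theorem tr0 {x y : Nd} {a : Perm S} (h : up0 σ x y = some a) :
    (ext (conn0 σ)).tr (.base x) (.base y) = some a := by
  rw [ext_base, Conn.tr_eq_some]
  exact Or.inl h

theorem atC_adj {V : Type} (C : Conn V (Perm S)) {x y : V} {g : Perm S} (h : C.tr x y = some g)
    (s t : S) : atC C (x, s) (y, t) ∈ lE := by
  by_cases e : g s = t
  · rw [atC_2 C h e]; decide
  · rw [atC_3 C h e]; decide

theorem atC_sim {V : Type} (C : Conn V (Perm S)) (x : V) (s t : S) :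
    atC C (x, s) (x, t) ∈ lF := by
  by_cases e : s = t
  · subst e; rw [atC_0]; decide
  · rw [atC_1 C _ e]; decide

variable (ω : Gn → S)

noncomputable def pos : Nd → Tr Nd (Perm S) × S
  | (7, p, _) => (.base (nd 0 un), ω p)
  | (8, p, g, _) => (.base (nd 3 g), σ g (ω p))
  | (9, p, g, _) => (.base (nd 1 un), σ g (ω p))
  | (10, p, g, _) => (.base (nd 3 un), σ g (ω p))
  | x => (.base x, ω un)

theorem gad_complete {g h k : Gn} (e : σ k = σ h * σ g) :
    ∀ x ∈ gad g h k, atC (ext (conn0 σ)) (pos σ ω x.1) (pos σ ω x.2.1) ∈ x.2.2 := by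
  simp only [gad, List.mem_cons, List.not_mem_nil, or_false, forall_eq_or_imp, forall_eq]
  have e1 : up0 σ (nd 3 g) (6, g, h, k) = some (σ h) := by simp [up0, nd, e]
  have e2 : up0 σ (nd 4 h) (6, g, h, k) = some 1 := by simp [up0, nd]
  have e3 : up0 σ (nd 5 k) (6, g, h, k) = some 1 := by simp [up0, nd]
  refine ⟨?_, ?_, ?_, ?_, ?_, ?_, ?_, ?_, ?_, atC_adj _ (tr0 σ e1) _ _, atC_adj _ (tr0 σ e2) _ _,
    atC_adj _ (tr0 σ e3) _ _⟩
  all_goals exact atC_adj _ (tr0 σ rfl) _ _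

theorem toC_complete [Infinite S] {T Q : List (Gn × Gn × Gn)} {p q : Gn} (h1 : σ un = 1)
    (hT : ∀ t ∈ T, σ t.2.2 = σ t.2.1 * σ t.1) (hQ : ∀ t ∈ Q, σ t.2.1 (ω t.1) = ω t.2.2)
    (hpq : ω p ≠ ω q) : CSat (toC T Q p q) := by
  refine ⟨_, _, isRep_cover (conn0 σ), pos σ ω, ?_⟩
  simp only [toC, List.mem_append, List.mem_flatMap, or_imp, forall_and,
    List.mem_cons, List.not_mem_nil, forall_eq, forall_exists_index, and_imp, Set.mem_ofPred_eq]
  refine ⟨⟨?_, ?_⟩, atC_sim _ _ _ _, atC_sim _ _ _ _, ?_, atC_adj _ (tr0 σ rfl) _ _,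
    atC_adj _ (tr0 σ rfl) _ _, by simp⟩
  · intro x t ht hx
    simp only [tcons, List.mem_append] at hx
    rcases hx with ((hx | hx) | hx) | hx
    · exact gad_complete σ ω (hT t ht) x hx
    · exact gad_complete σ ω (by simp [h1]) x hx
    · exact gad_complete σ ω (by simp [h1]) x hx
    · exact gad_complete σ ω (by simp [h1]) x hx
  · rintro x ⟨a, g, b⟩ ht
    revert x
    simp only [pcons, List.mem_cons, List.not_mem_nil, or_false, forall_eq_or_imp, forall_eq,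
      Finset.mem_singleton]
    refine ⟨atC_sim _ _ _ _, atC_sim _ _ _ _, atC_sim _ _ _ _, atC_sim _ _ _ _, atC_sim _ _ _ _,
      atC_2 _ (tr0 σ rfl) rfl, ?_, atC_2 _ (tr0 σ rfl) rfl, ?_⟩
    · rw [atC_symm]
      exact atC_2 _ (tr0 σ rfl) rfl
    · rw [atC_symm]
      refine atC_2 _ (tr0 σ rfl) ?_
      rw [h1]
      exact (hQ _ ht).symm
  · exact Finset.mem_singleton.2 (atC_1 _ _ hpq)

end Pool.Agent.MP_f23db5_lc
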