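import Pool.Agent.MP_f23db5_lc.Rep

/-! The cover of a graph given by a flat connection is a representation. -/

namespace Pool.Agent.MP_f23db5_lc

open Function Equiv

variable {V S : Type} (C : Conn V (Perm S))

open Classical in
/-- the atom carried by a pair of points of the cover -/
noncomputable def atC (d e : V × S) : Fin 5 :=
  if d.1 = e.1 then (if d.2 = e.2 then 0 else 1) else
    match C.tr d.1 e.1 with
    | some g => if g d.2 = e.2 then 2 else 3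
    | none => 4

theorem atC_0 (x : V) (s : S) : atC C (x, s) (x, s) = 0 := by simp [atC]

theorem atC_1 (x : V) {s t : S} (h : s ≠ t) : atC C (x, s) (x, t) = 1 := by simp [atC, h]

theorem tr_ne {x y : V} {g : Perm S} (h : C.tr x y = some g) : x ≠ y := by
  rintro rfl
  rw [C.tr_self] at h
  cases h

theorem atC_2 {x y : V} {g : Perm S} (h : C.tr x y = some g) {s t : S} (e : g s = t) :
    atC C (x, s) (y, t) = 2 := by simp [atC, tr_ne C h, h, e]

theorem atC_3 {x y : V} {g : Perm S} (h : C.tr x y = some g) {s t : S} (e : g s ≠ t) :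
    atC C (x, s) (y, t) = 3 := by simp [atC, tr_ne C h, h, e]

theorem atC_4 {x y : V} (h' : x ≠ y) (h : C.tr x y = none) (s t : S) :
    atC C (x, s) (y, t) = 4 := by simp [atC, h', h]

theorem atC_cases (x y : V) (s t : S) :
    (x = y ∧ s = t ∧ atC C (x, s) (y, t) = 0) ∨ (x = y ∧ s ≠ t ∧ atC C (x, s) (y, t) = 1) ∨
    (∃ g, C.tr x y = some g ∧ g s = t ∧ atC C (x, s) (y, t) = 2) ∨
    (∃ g, C.tr x y = some g ∧ g s ≠ t ∧ atC C (x, s) (y, t) = 3) ∨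
    (x ≠ y ∧ C.tr x y = none ∧ atC C (x, s) (y, t) = 4) := by
  by_cases h : x = y
  · subst h
    by_cases h' : s = t
    · subst h'; exact Or.inl ⟨rfl, rfl, atC_0 C _ _⟩
    · exact Or.inr (Or.inl ⟨rfl, h', atC_1 C _ h'⟩)
  · cases h1 : C.tr x y with
    | none => exact Or.inr (Or.inr (Or.inr (Or.inr ⟨h, rfl, atC_4 C h h1 _ _⟩)))
    | some g =>
      by_cases h' : g s = t
      · exact Or.inr (Or.inr (Or.inl ⟨g, rfl, h', atC_2 C h1 h'⟩))
      · exact Or.inr (Or.inr (Or.inr (Or.inl ⟨g, rfl, h', atC_3 C h1 h'⟩)))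

theorem atC_eq_zero (d e : V × S) : atC C d e = 0 ↔ d = e := by
  obtain ⟨x, s⟩ := d
  obtain ⟨y, t⟩ := e
  constructor
  · intro h
    rcases atC_cases C x y s t with ⟨rfl, rfl, -⟩ | ⟨-, -, h'⟩ | ⟨_, -, -, h'⟩ | ⟨_, -, -, h'⟩ |
      ⟨-, -, h'⟩
    · rfl
    all_goals rw [h] at h'; cases h'
  · intro h
    cases h
    exact atC_0 C _ _

theorem atC_symm (d e : V × S) : atC C d e = atC C e d := by
  obtain ⟨x, s⟩ := d
  obtain ⟨y, t⟩ := e
  rcases atC_cases C x y s t with ⟨rfl, rfl, -⟩ | ⟨rfl, h, h'⟩ | ⟨g, h1, h, h'⟩ | ⟨g, h1, h, h'⟩ |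
      ⟨h1, h, h'⟩
  · rfl
  · rw [h', atC_1 C _ h.symm]
  · rw [h', atC_2 C (C.tr_symm h1) (by rw [← h]; simp)]
  · rw [h', atC_3 C (C.tr_symm h1) (by rintro rfl; simp at h)]
  · rw [h', atC_4 C h1.symm (C.tr_none h)]

theorem atC_tri (d e f : V × S) : tri (atC C d f) (atC C f e) (atC C d e) = true := by
  obtain ⟨x, s⟩ := d
  obtain ⟨y, t⟩ := e
  obtain ⟨z, u⟩ := f
  have k1 := @Conn.tr_symm _ _ _ C
  have k2 := @Conn.tr_none _ _ _ C
  have k3 := C.tr_self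
  rcases atC_cases C x z s u with ⟨a0, a1, a⟩ | ⟨a0, a1, a⟩ | ⟨g, a1, a2, a⟩ | ⟨g, a1, a2, a⟩ |
      ⟨a1, a2, a⟩ <;>
  rcases atC_cases C z y u t with ⟨b0, b1, b⟩ | ⟨b0, b1, b⟩ | ⟨g', b1, b2, b⟩ |
      ⟨g', b1, b2, b⟩ | ⟨b1, b2, b⟩ <;>
  rcases atC_cases C x y s t with ⟨c0, c1, c⟩ | ⟨c0, c1, c⟩ | ⟨g'', c1, c2, c⟩ |
      ⟨g'', c1, c2, c⟩ | ⟨c1, c2, c⟩ <;>
  rw [a, b, c] <;>
  first
  | decide
  | (exfalso; clear a b c; have := C.tr_flat a1 b1 c1; subst this a2; simp_all; done)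
  | (exfalso; clear a b c; have := C.tr_flat a1 b1 c1; subst this b2 c2; simp_all; done)
  | (exfalso; clear a b c; subst c0; have := k1 a1; rw [this] at b1; cases b1; subst a2;
      simp_all; done)
  | (exfalso; clear a b c; subst c0; have := k1 a1; rw [this] at b1; cases b1; subst b2;
      simp_all; done)
  | (exfalso; clear a b c; subst a0; rw [b1] at c1; cases c1; subst b2; simp_all; done)
  | (exfalso; clear a b c; have := C.tr_flat a1 b1 c1; subst this b2; simp_all; done)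
  | (exfalso; clear a b c; grind)

theorem exists_ne_two [Infinite S] (a b : S) : ∃ u, u ≠ a ∧ u ≠ b := by
  classical
  obtain ⟨u, hu⟩ := Infinite.exists_notMem_finset ({a, b} : Finset S)
  exact ⟨u, by simpa using hu⟩

theorem fiber_witness [Infinite S] (x y : V) (s t : S) (r : Fin 5)
    (h : tri 1 r (atC C (x, s) (y, t)) = true) :
    ∃ u, atC C (x, s) (x, u) = 1 ∧ atC C (x, u) (y, t) = r := by
  rcases atC_cases C x y s t with ⟨rfl, rfl, c⟩ | ⟨rfl, c1, c⟩ | ⟨g, c1, c2, c⟩ |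
      ⟨g, c1, c2, c⟩ | ⟨c1, c2, c⟩ <;> rw [c] at h
  · obtain rfl : r = 1 := by revert r; decide
    obtain ⟨u, hu, -⟩ := exists_ne_two s s
    exact ⟨u, atC_1 C _ hu.symm, atC_1 C _ hu⟩
  · obtain rfl | rfl : r = 0 ∨ r = 1 := by revert r; decide
    · exact ⟨t, c, atC_0 C _ _⟩
    · obtain ⟨u, hu, hu'⟩ := exists_ne_two s t
      exact ⟨u, atC_1 C _ hu.symm, atC_1 C _ hu'⟩
  · obtain rfl : r = 3 := by revert r; decide
    obtain ⟨u, hu, -⟩ := exists_ne_two s s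
    exact ⟨u, atC_1 C _ hu.symm, atC_3 C c1 (by subst c2; simpa using hu)⟩
  · obtain rfl | rfl : r = 2 ∨ r = 3 := by revert r; decide
    · exact ⟨g⁻¹ t, atC_1 C _ (by rintro rfl; simp at c2), atC_2 C c1 (by simp)⟩
    · obtain ⟨u, hu, hu'⟩ := exists_ne_two s (g⁻¹ t)
      exact ⟨u, atC_1 C _ hu.symm, atC_3 C c1 (by rintro rfl; simp at hu')⟩
  · obtain rfl : r = 4 := by revert r; decide
    obtain ⟨u, hu, -⟩ := exists_ne_two s s
    exact ⟨u, atC_1 C _ hu.symm, atC_4 C c1 c2 _ _⟩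

variable {B : Type} (E : Conn B (Perm S))

theorem both_witness (x y : Tr B (Perm S)) (s t : S) (g : Perm S) :
    ∃ w β, (ext E).tr x w = some 1 ∧ (ext E).tr y w = some β ∧
      (atC (ext E) (x, s) (y, t) = 0 ∨ atC (ext E) (x, s) (y, t) = 2 → β t = s) ∧
      (atC (ext E) (x, s) (y, t) = 1 ∨ atC (ext E) (x, s) (y, t) = 3 → β t ≠ s) ∧
      (atC (ext E) (x, s) (y, t) = 4 → β = g) := by
  obtain ⟨w, -, -, h1, h2⟩ := ext_both E x y g
  rcases atC_cases (ext E) x y s t with ⟨rfl, rfl, c⟩ | ⟨rfl, c1, c⟩ | ⟨g', c1, c2, c⟩ |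
      ⟨g', c1, c2, c⟩ | ⟨c1, c2, c⟩ <;> rw [c]
  · exact ⟨w, 1, h1, h1, by simp⟩
  · exact ⟨w, 1, h1, h1, by simp [c1.symm]⟩
  · have h3 := h2.resolve_left (tr_ne _ c1).symm
    rw [(ext E).tr_symm c1] at h3
    exact ⟨w, g'⁻¹, h1, h3, by simp [← c2]⟩
  · have h3 := h2.resolve_left (tr_ne _ c1).symm
    rw [(ext E).tr_symm c1] at h3
    refine ⟨w, g'⁻¹, h1, h3, by simp, fun _ => ?_, by simp⟩
    rintro rfl
    simp at c2
  · have h3 := h2.resolve_left c1.symm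
    rw [(ext E).tr_none c2] at h3
    exact ⟨w, g, h1, h3, by simp⟩

theorem atC_witness_aux [Infinite S] (x y : Tr B (Perm S)) (s t : S) (r r' : Fin 5) (hr : r ≤ r')
    (h : tri r r' (atC (ext E) (x, s) (y, t)) = true) :
    ∃ z, atC (ext E) (x, s) z = r ∧ atC (ext E) z (y, t) = r' := by
  classical
  obtain rfl | rfl | ⟨rfl, rfl⟩ | ⟨rfl, rfl⟩ | ⟨rfl, rfl⟩ | ⟨h1, rfl⟩ | ⟨rfl, rfl⟩ :
      r = 0 ∨ r = 1 ∨ (r = 2 ∧ r' = 2) ∨ (r = 2 ∧ r' = 3) ∨ (r = 3 ∧ r' = 3) ∨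
        ((r = 2 ∨ r = 3) ∧ r' = 4) ∨ (r = 4 ∧ r' = 4) := by
    clear h; revert r r'; decide
  · refine ⟨(x, s), atC_0 _ _ _, ?_⟩
    rw [tri_comm, tri_zero] at h
    exact h.symm
  · obtain ⟨u, hu⟩ := fiber_witness (ext E) x y s t r' h
    exact ⟨(x, u), hu⟩
  · obtain ⟨w, β, h1, h2, h3, -, h5⟩ := both_witness E x y s t (Equiv.swap t s)
    refine ⟨(w, s), atC_2 _ h1 rfl, ?_⟩
    rw [atC_symm]
    refine atC_2 _ h2 ?_
    generalize atC (ext E) (x, s) (y, t) = c at *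
    obtain h6 | h6 : (c = 0 ∨ c = 2) ∨ c = 4 := by clear h3 h5; revert c; decide
    · exact h3 h6
    · rw [h5 h6]; simp
  · obtain ⟨u, hu, -⟩ := exists_ne_two s s
    obtain ⟨w, β, h1, h2, -, h4, h5⟩ := both_witness E x y s t (Equiv.swap t u)
    refine ⟨(w, s), atC_2 _ h1 rfl, ?_⟩
    rw [atC_symm]
    refine atC_3 _ h2 ?_
    generalize atC (ext E) (x, s) (y, t) = c at *
    obtain h6 | h6 : (c = 1 ∨ c = 3) ∨ c = 4 := by clear h4 h5; revert c; decide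
    · exact h4 h6
    · rw [h5 h6]; simpa using hu
  · obtain ⟨w, β, h1, h2, -⟩ := both_witness E x y s t 1
    obtain ⟨u, hu, hu'⟩ := exists_ne_two s (β t)
    refine ⟨(w, u), atC_3 _ h1 hu.symm, ?_⟩
    rw [atC_symm]
    exact atC_3 _ h2 hu'.symm
  · have hxy : y ≠ x := by
      rintro rfl
      rcases atC_cases (ext E) y y s t with ⟨-, -, c⟩ | ⟨-, -, c⟩ | ⟨g', c1, -, -⟩ |
        ⟨g', c1, -, -⟩ | ⟨c1, -, -⟩
      · rw [c] at h; rcases h1 with rfl | rfl <;> simp [tri] at h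
      · rw [c] at h; rcases h1 with rfl | rfl <;> simp [tri] at h
      · exact tr_ne _ c1 rfl
      · exact tr_ne _ c1 rfl
      · exact c1 rfl
    obtain ⟨w, -, h2, h3, h4⟩ := ext_one E hxy
    obtain ⟨u, hu, -⟩ := exists_ne_two s s
    rcases h1 with rfl | rfl
    · exact ⟨(w, s), atC_2 _ h3 rfl, by rw [atC_symm]; exact atC_4 _ h2 h4 _ _⟩
    · exact ⟨(w, u), atC_3 _ h3 hu.symm, by rw [atC_symm]; exact atC_4 _ h2 h4 _ _⟩
  · obtain ⟨w, h1, h2, h3, h4⟩ := ext_zero E x y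
    exact ⟨(w, s), atC_4 _ h1 h3 _ _, by rw [atC_symm]; exact atC_4 _ h2 h4 _ _⟩

theorem atC_witness [Infinite S] (d e : Tr B (Perm S) × S) (r r' : Fin 5)
    (h : tri r r' (atC (ext E) d e) = true) :
    ∃ z, atC (ext E) d z = r ∧ atC (ext E) z e = r' := by
  obtain ⟨x, s⟩ := d
  obtain ⟨y, t⟩ := e
  rcases le_total r r' with hr | hr
  · exact atC_witness_aux E x y s t r r' hr h
  · rw [tri_comm, atC_symm] at h
    obtain ⟨z, h1, h2⟩ := atC_witness_aux E y x t s r' r hr h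
    exact ⟨z, by rw [atC_symm, h2], by rw [atC_symm, h1]⟩

theorem isRep_cover [Infinite S] [Nonempty B] :
    IsRep alg (fun X : Finset (Fin 5) =>
      {p : (Tr B (Perm S) × S) × (Tr B (Perm S) × S) | atC (ext E) p.1 p.2 ∈ X}) :=
  isRep_of_at _ (atC_eq_zero _) (atC_symm _) (atC_tri _) (atC_witness E)
    ⟨(.base (Classical.arbitrary B), Classical.arbitrary S)⟩

end Pool.Agent.MP_f23db5_lc
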