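import Mathlib
import Pool.Prelude.Def_H_3587d628

/-! Relation algebras, representations, networks and the network satisfaction problem. -/

namespace Pool.Agent.MP_f23db5_lc

/-- The non-Boolean operations of a relation algebra: composition, converse, identity. -/
structure Ops (A : Type) where
  comp : A → A → A
  conv : A → A
  ide : A

/-- Tarski's axioms (the Boolean ones being those of the Boolean algebra `A`). -/
structure IsRelAlg {A : Type} [BooleanAlgebra A] (R : Ops A) : Prop where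
  comp_assoc : ∀ x y z, R.comp (R.comp x y) z = R.comp x (R.comp y z)
  sup_comp : ∀ x y z, R.comp (x ⊔ y) z = R.comp x z ⊔ R.comp y z
  comp_ide : ∀ x, R.comp x R.ide = x
  conv_conv : ∀ x, R.conv (R.conv x) = x
  conv_sup : ∀ x y, R.conv (x ⊔ y) = R.conv x ⊔ R.conv y
  conv_comp : ∀ x y, R.conv (R.comp x y) = R.comp (R.conv y) (R.conv x)
  tarski : ∀ x y, R.comp (R.conv x) (R.comp x y)ᶜ ⊔ yᶜ = yᶜ

/-- `ρ` is an embedding into the algebra of all binary relations on `D`. -/
structure IsRep {A : Type} [BooleanAlgebra A] (R : Ops A) {D : Type} (ρ : A → Set (D × D)) :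
    Prop where
  inj : Function.Injective ρ
  map_sup : ∀ x y, ρ (x ⊔ y) = ρ x ∪ ρ y
  map_inf : ∀ x y, ρ (x ⊓ y) = ρ x ∩ ρ y
  map_compl : ∀ x, ρ xᶜ = (ρ x)ᶜ
  map_bot : ρ ⊥ = ∅
  map_top : ρ ⊤ = Set.univ
  map_comp : ∀ x y, ρ (R.comp x y) = {p | ∃ z, (p.1, z) ∈ ρ x ∧ (z, p.2) ∈ ρ y}
  map_conv : ∀ x, ρ (R.conv x) = {p | (p.2, p.1) ∈ ρ x}
  map_ide : ρ R.ide = {p | p.1 = p.2}

/-- The network with vertex set `Fin n` and labelling `lab` is satisfiable in some
representation. -/
def Satisfiable {A : Type} [BooleanAlgebra A] (R : Ops A) (n : ℕ) (lab : Fin n → Fin n → A) :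
    Prop :=
  ∃ (D : Type) (ρ : A → Set (D × D)), IsRep R ρ ∧
    ∃ f : Fin n → D, ∀ i j, (f i, f j) ∈ ρ (lab i j)

open Classical in
/-- The network satisfaction problem as a language of bit strings: a network is written as the
matrix (list of rows) of the numbers `code (lab i j)`. -/
noncomputable def NSP {A : Type} [BooleanAlgebra A] (R : Ops A) (code : A → ℕ) :
    List Bool → Bool := fun w =>
  decide (∃ (n : ℕ) (lab : Fin n → Fin n → A), Satisfiable R n lab ∧
    w = N487b59b3.bitEncode (List.ofFn fun i => List.ofFn fun j => code (lab i j)))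

/-- Consistent triangles of the five symmetric atoms `0` (identity), `1`, `2`, `3`, `4`. -/
def Tri (r s t : Fin 5) : Prop :=
  (r = 0 → s = t) ∧ (s = 0 → r = t) ∧ (t = 0 → r = s) ∧
    ({r, s, t} : Multiset (Fin 5)) ∉
      ([{1, 1, 2}, {1, 1, 3}, {1, 1, 4}, {1, 2, 2}, {1, 2, 4}, {1, 3, 4}, {2, 2, 3}] :
        List (Multiset (Fin 5)))

open Classical in
/-- The 32-element algebra of sets of atoms. -/
noncomputable def alg : Ops (Finset (Fin 5)) where
  comp X Y := Finset.univ.filter fun t => ∃ r ∈ X, ∃ s ∈ Y, Tri r s t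
  conv X := X
  ide := {0}

end Pool.Agent.MP_f23db5_lc
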