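import Pool.Agent.MP_f23db5_lc.Cover

/-! Multiplication tables of permutations as networks. -/

namespace Pool.Agent.MP_f23db5_lc

open Function Equiv

theorem exists_at {D : Type} {ρ : Finset (Fin 5) → Set (D × D)} (h : IsRep alg ρ) :
    ∃ α : D → D → Fin 5, (∀ X x y, (x, y) ∈ ρ X ↔ α x y ∈ X) ∧ (∀ x y, α x y = 0 ↔ x = y) ∧
      (∀ x y, α x y = α y x) ∧ (∀ x y z, tri (α x z) (α z y) (α x y) = true) ∧
      (∀ x y r s, tri r s (α x y) = true → ∃ z, α x z = r ∧ α z y = s) := by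
  have h1 : ∀ (X : Finset (Fin 5)) p, p ∈ ρ X ↔ ∃ r ∈ X, p ∈ ρ {r} := by
    intro X p
    induction X using Finset.induction_on with
    | empty => simpa using Set.ext_iff.1 h.map_bot p
    | insert a X _ ih =>
      rw [Finset.insert_eq, ← Finset.sup_eq_union, h.map_sup, Set.mem_union, ih]
      simp
  have h2 : ∀ x y, ∃ r, (x, y) ∈ ρ {r} := fun x y => by
    have : (x, y) ∈ ρ ⊤ := by rw [h.map_top]; trivial
    obtain ⟨r, -, hr⟩ := (h1 _ _).1 this
    exact ⟨r, hr⟩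
  choose α hα using h2
  have h3 : ∀ X x y, (x, y) ∈ ρ X ↔ α x y ∈ X := by
    intro X x y
    rw [h1]
    refine ⟨?_, fun hx => ⟨_, hx, hα x y⟩⟩
    rintro ⟨r, hr, h4⟩
    by_contra hc
    have : (x, y) ∈ ρ ({r} ⊓ {α x y}) := by rw [h.map_inf]; exact ⟨h4, hα x y⟩
    have e : ({r} ⊓ {α x y} : Finset (Fin 5)) = ⊥ := by
      ext t
      simp only [Finset.inf_eq_inter, Finset.mem_inter, Finset.mem_singleton, Finset.bot_eq_empty,
        Finset.notMem_empty, iff_false, not_and]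
      rintro rfl e
      exact hc (e ▸ hr)
    rw [e, h.map_bot] at this
    exact this
  refine ⟨α, h3, fun x y => ?_, fun x y => ?_, fun x y z => ?_, fun x y r s hr => ?_⟩
  · have := Set.ext_iff.1 h.map_ide (x, y)
    rw [h3] at this
    simpa [alg] using this
  · have := Set.ext_iff.1 (h.map_conv {α x y}) (x, y)
    simp only [alg, h3, Set.mem_ofPred_eq, Finset.mem_singleton, true_iff] at this
    exact this.symm
  · have := Set.ext_iff.1 (h.map_comp {α x z} {α z y}) (x, y)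
    rw [h3, mem_comp] at this
    simpa using this.2 ⟨z, hα _ _, hα _ _⟩
  · have := Set.ext_iff.1 (h.map_comp {r} {s}) (x, y)
    rw [h3, mem_comp] at this
    simpa [h3] using this.1 ⟨r, by simp, s, by simp, hr⟩

abbrev Gn : Type := ℕ × ℕ
abbrev Nd : Type := ℕ × Gn × Gn × Gn
abbrev Lb : Type := Finset (Fin 5)
abbrev Cons : Type := List (Nd × Nd × Lb)

def un : Gn := (0, 0)
def nd (i : ℕ) (g : Gn) : Nd := (i, g, un, un)
def lE : Lb := {2, 3}
def lF : Lb := {0, 1}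

def CSat (c : Cons) : Prop :=
  ∃ (D : Type) (ρ : Lb → Set (D × D)), IsRep alg ρ ∧ ∃ f : Nd → D, ∀ x ∈ c, (f x.1, f x.2.1) ∈ ρ x.2.2

def gad (g h k : Gn) : Cons :=
  [(nd 0 un, nd 3 g, lE), (nd 1 un, nd 3 g, lE), (nd 1 un, nd 4 h, lE), (nd 2 un, nd 4 h, lE),
    (nd 0 un, nd 5 k, lE), (nd 2 un, nd 5 k, lE), (nd 0 un, (6, g, h, k), lE),
    (nd 1 un, (6, g, h, k), lE), (nd 2 un, (6, g, h, k), lE), (nd 3 g, (6, g, h, k), lE),
    (nd 4 h, (6, g, h, k), lE), (nd 5 k, (6, g, h, k), lE)]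

def tcons (t : Gn × Gn × Gn) : Cons :=
  gad t.1 t.2.1 t.2.2 ++ gad un t.2.1 t.2.1 ++ gad t.2.1 un t.2.1 ++ gad t.2.2 un t.2.2

def pcons (t : Gn × Gn × Gn) : Cons :=
  [(nd 7 t.1, nd 0 un, lF), ((8, t), nd 3 t.2.1, lF), ((9, t), nd 1 un, lF),
    ((10, t), nd 3 un, lF), (nd 7 t.2.2, nd 0 un, lF), (nd 7 t.1, (8, t), {2}),
    ((8, t), (9, t), {2}), ((9, t), (10, t), {2}), ((10, t), nd 7 t.2.2, {2})]

def toC (T Q : List (Gn × Gn × Gn)) (p q : Gn) : Cons :=
  T.flatMap tcons ++ Q.flatMap pcons ++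
    [(nd 7 p, nd 0 un, lF), (nd 7 q, nd 0 un, lF), (nd 7 p, nd 7 q, {1}),
      (nd 0 un, nd 3 un, lE), (nd 1 un, nd 3 un, lE)]

section sound

variable {D : Type} (α : D → D → Fin 5)

def Sim (x y : D) : Prop := α x y ∈ lF
def Adj (x y : D) : Prop := α x y ∈ lE

open Classical in
/-- transport into the fibre of `v` -/
noncomputable def mv (v x : D) : D := if h : ∃ y, α x y = 2 ∧ Sim α y v then h.choose else v

variable {α} (h0 : ∀ x y, α x y = 0 ↔ x = y) (hs : ∀ x y, α x y = α y x)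
  (ht : ∀ x y z, tri (α x z) (α z y) (α x y) = true)
  (hw : ∀ x y r s, tri r s (α x y) = true → ∃ z, α x z = r ∧ α z y = s)

include h0 in
theorem sim_refl (x : D) : Sim α x x := by simp [Sim, (h0 x x).2 rfl, lF]

include h0 in
theorem mv_sim (v x : D) : Sim α (mv α v x) v := by
  unfold mv
  split_ifs with h
  · exact h.choose_spec.2
  · exact sim_refl h0 v

include hs in
theorem Sim.symm {x y : D} (h : Sim α x y) : Sim α y x := by unfold Sim; rwa [hs]

include hs in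
theorem Adj.symm {x y : D} (h : Adj α x y) : Adj α y x := by unfold Adj; rwa [hs]

include ht in
theorem Sim.trans {x y z : D} (h : Sim α x y) (h' : Sim α y z) : Sim α x z := by
  have := ht x z y
  unfold Sim at *
  generalize α x y = a at *
  generalize α y z = b at *
  generalize α x z = c at *
  revert a b c
  decide

include ht in
theorem Sim.adj {x y z : D} (h : Sim α x y) (h' : Adj α y z) : Adj α x z := by
  have := ht x z y
  unfold Sim Adj at *
  generalize α x y = a at *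
  generalize α y z = b at *
  generalize α x z = c at *
  revert a b c
  decide

include h0 hw in
theorem mv_spec {x v : D} (h : Adj α x v) : α x (mv α v x) = 2 := by
  have : ∃ y, α x y = 2 ∧ Sim α y v := by
    have h1 : α x v = 2 ∨ α x v = 3 := by simpa [Adj, lE] using h
    rcases h1 with h1 | h1
    · exact ⟨v, h1, sim_refl h0 v⟩
    · obtain ⟨z, h2, h3⟩ := hw x v 2 1 (by rw [h1]; rfl)
      exact ⟨z, h2, by simp [Sim, h3, lF]⟩
  unfold mv
  rw [dif_pos this]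
  exact this.choose_spec.1

include h0 hs ht in
theorem mv_eq {x y v : D} (h : α x y = 2) (h' : Sim α y v) : mv α v x = y := by
  have : ∃ y, α x y = 2 ∧ Sim α y v := ⟨y, h, h'⟩
  unfold mv
  rw [dif_pos this]
  obtain ⟨h1, h2⟩ := this.choose_spec
  generalize this.choose = z at *
  have h3 := h2.trans ht (h'.symm hs)
  have h4 := ht z y x
  rw [hs z x, h1, h] at h4
  rw [← h0]
  unfold Sim at h3
  generalize α z y = c at *
  revert c
  decide

include h0 hs ht hw in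
theorem mv_mv {x u v : D} (h1 : Adj α x u) (h2 : Adj α u v) (h3 : Adj α x v) :
    mv α v (mv α u x) = mv α v x := by
  have a1 := mv_spec h0 hw h1
  have a2 := mv_spec h0 hw ((mv_sim h0 u x).adj ht h2)
  have a3 : Adj α x (mv α v (mv α u x)) :=
    (((mv_sim h0 v _).adj ht (h3.symm hs))).symm hs
  refine (mv_eq h0 hs ht ?_ (mv_sim h0 v _)).symm
  have := ht x (mv α v (mv α u x)) (mv α u x)
  rw [a1, a2] at this
  unfold Adj at a3
  generalize α x (mv α v (mv α u x)) = c at *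
  revert c
  decide

include h0 hs ht hw in
theorem mv_back {x u w : D} (h1 : Sim α x w) (h2 : Adj α w u) : mv α w (mv α u x) = x :=
  mv_eq h0 hs ht (by rw [hs]; exact mv_spec h0 hw (h1.adj ht h2)) h1

include h0 hs ht hw in
theorem mv_cone {x i j m c : D} (hx : Sim α x i) (h1 : Adj α i m) (h2 : Adj α j m)
    (h3 : Adj α i c) (h4 : Adj α j c) (h5 : Adj α m c) :
    mv α j (mv α m x) = mv α j (mv α c x) := by
  rw [← mv_mv h0 hs ht hw (hx.adj ht h1) h5 (hx.adj ht h3)]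
  exact (mv_mv h0 hs ht hw ((mv_sim h0 m x).adj ht h5) (h4.symm hs)
    ((mv_sim h0 m x).adj ht (h2.symm hs))).symm

include h0 hs ht hw in
theorem gad_sound (f : Nd → D) {g h k : Gn} (H : ∀ x ∈ gad g h k, α (f x.1) (f x.2.1) ∈ x.2.2)
    {x : D} (hx : Sim α x (f (nd 0 un))) :
    mv α (f (nd 2 un)) (mv α (f (nd 5 k)) x) =
      mv α (f (nd 2 un)) (mv α (f (nd 4 h)) (mv α (f (nd 1 un)) (mv α (f (nd 3 g)) x))) := by
  simp only [gad, List.mem_cons, List.not_mem_nil, or_false, forall_eq_or_imp, forall_eq] at H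
  obtain ⟨a1, a2, a3, a4, a5, a6, a7, a8, a9, a10, a11, a12⟩ := H
  rw [mv_cone h0 hs ht hw hx a5 a6 a7 a9 a12, mv_cone h0 hs ht hw hx a1 a2 a7 a8 a10,
    mv_cone h0 hs ht hw (mv_sim h0 _ _) a3 a4 a8 a9 a11,
    mv_back h0 hs ht hw (mv_sim h0 _ _) (Adj.symm hs a8)]

end sound

theorem toC_sound {T Q : List (Gn × Gn × Gn)} {p q : Gn} (H : CSat (toC T Q p q)) :
    ∃ (S : Type) (σ : Gn → S → S) (ω : Gn → S), (∀ s, σ un s = s) ∧
      (∀ t ∈ T, ∀ s, σ t.2.2 s = σ t.2.1 (σ t.1 s)) ∧ (∀ t ∈ Q, σ t.2.1 (ω t.1) = ω t.2.2) ∧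
      ω p ≠ ω q := by
  classical
  obtain ⟨D, ρ, hρ, f, hf⟩ := H
  obtain ⟨α, hα, h0, hs, ht, hw⟩ := exists_at hρ
  simp only [hα, toC, List.mem_append, List.mem_flatMap, or_imp, forall_and,
    List.mem_cons, List.not_mem_nil, forall_eq, forall_exists_index, and_imp] at hf
  obtain ⟨⟨hT, hQ⟩, b1, b2, b3, b4, b5, -⟩ := hf
  let σ : Gn → {x // Sim α x (f (nd 0 un))} → {x // Sim α x (f (nd 0 un))} := fun g x =>
    ⟨mv α (f (nd 0 un)) (mv α (f (nd 3 un)) (mv α (f (nd 1 un)) (mv α (f (nd 3 g)) x.1))),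
      mv_sim h0 _ _⟩
  let ω : Gn → {x // Sim α x (f (nd 0 un))} := fun p =>
    if h : Sim α (f (nd 7 p)) (f (nd 0 un)) then ⟨_, h⟩ else ⟨_, sim_refl h0 _⟩
  have hω : ∀ p, Sim α (f (nd 7 p)) (f (nd 0 un)) → (ω p).1 = f (nd 7 p) := fun p h => by
    simp only [ω, dif_pos h]
  have c1 : ∀ x, Sim α x (f (nd 1 un)) → mv α (f (nd 1 un)) (mv α (f (nd 3 un))
      (mv α (f (nd 0 un)) (mv α (f (nd 3 un)) x))) = x := fun x hx => by
    rw [mv_back h0 hs ht hw (mv_sim h0 _ _) (Adj.symm hs b4), mv_back h0 hs ht hw hx b5]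
  refine ⟨_, σ, ω, fun s => Subtype.ext ?_, fun t htT s => Subtype.ext ?_,
    fun t htQ => Subtype.ext ?_, fun h => ?_⟩
  · simp only [σ]
    rw [mv_back h0 hs ht hw (mv_sim h0 _ _) (Adj.symm hs b5), mv_back h0 hs ht hw s.2 b4]
  · obtain ⟨g, h, k⟩ := t
    have e : ∀ x ∈ tcons (g, h, k), α (f x.1) (f x.2.1) ∈ x.2.2 := fun x hx => hT x _ htT hx
    simp only [tcons, List.mem_append, or_imp, forall_and] at e
    obtain ⟨⟨⟨e1, e2⟩, e3⟩, e4⟩ := e
    have g1 := gad_sound h0 hs ht hw f e1 s.2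
    have g2 := gad_sound h0 hs ht hw f e2 (σ g s).2
    have g3 := gad_sound h0 hs ht hw f e3 (σ g s).2
    have g4 := gad_sound h0 hs ht hw f e4 s.2
    simp only [σ] at g2 g3 ⊢
    rw [c1 _ (mv_sim h0 _ _), ← g1, g4, g3] at g2
    have a3 : Adj α (f (nd 1 un)) (f (nd 4 un)) := e4 (nd 1 un, nd 4 un, lE) (by simp [gad])
    have a4 : Adj α (f (nd 2 un)) (f (nd 4 un)) := e4 (nd 2 un, nd 4 un, lE) (by simp [gad])
    have g5 := congrArg (fun y => mv α (f (nd 1 un)) (mv α (f (nd 4 un)) y)) g2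
    simp only [mv_back h0 hs ht hw (mv_sim h0 _ _) (Adj.symm hs a4),
      mv_back h0 hs ht hw (mv_sim h0 _ _) a3] at g5
    rw [g5]
  · have e : ∀ x ∈ pcons t, α (f x.1) (f x.2.1) ∈ x.2.2 := fun x hx => hQ x _ htQ hx
    simp only [pcons, List.mem_cons, List.not_mem_nil, or_false, forall_eq_or_imp, forall_eq,
      Finset.mem_singleton] at e
    obtain ⟨a1, a2, a3, a4, a5, a6, a7, a8, a9⟩ := e
    simp only [σ]
    rw [hω _ a1, hω _ a5, mv_eq h0 hs ht a6 a2, mv_eq h0 hs ht a7 a3, mv_eq h0 hs ht a8 a4,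
      mv_eq h0 hs ht a9 a5]
  · have := congrArg Subtype.val h
    rw [hω _ b1, hω _ b2, ← h0] at this
    rw [this] at b3
    simp at b3

end Pool.Agent.MP_f23db5_lc
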