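import Pool.Agent.MP_f23db5_lc.Rules
import Pool.Agent.MP_f23db5_lc.Prog

/-! Counter programs as affine rules, through prime power codes. -/

namespace Pool.Agent.MP_f23db5_lc

open Function Relation

noncomputable def pm (i : ℕ) : ℕ := Nat.nth Nat.Prime i

theorem pm_prime (i : ℕ) : (pm i).Prime := Nat.prime_nth_prime i

theorem pm_inj : Injective pm := Nat.nth_injective Nat.infinite_setOfPred_prime

noncomputable def enc (m : ℕ) (x : ℕ → ℕ) : ℕ := ∏ j ∈ Finset.range m, pm j ^ x j

theorem enc_inc {m i : ℕ} (hi : i < m) (x : ℕ → ℕ) :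
    enc m (update x i (x i + 1)) = pm i * enc m x := by
  unfold enc
  rw [← Finset.mul_prod_erase _ _ (Finset.mem_range.2 hi),
    ← Finset.mul_prod_erase _ (fun j => pm j ^ x j) (Finset.mem_range.2 hi), update_self, pow_succ',
    mul_assoc]
  congr 2
  exact Finset.prod_congr rfl fun j hj => by rw [update_of_ne (Finset.ne_of_mem_erase hj)]

theorem enc_dec {m i : ℕ} (hi : i < m) {x : ℕ → ℕ} (hx : x i ≠ 0) :
    enc m x = pm i * enc m (update x i (x i - 1)) := by
  rw [← enc_inc hi]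
  congr 1
  rw [update_idem, update_self, Nat.sub_add_cancel (by omega), update_eq_self]

theorem dvd_enc {m i : ℕ} (hi : i < m) (x : ℕ → ℕ) : pm i ∣ enc m x ↔ x i ≠ 0 := by
  refine ⟨fun h h0 => ?_, fun h => by rw [enc_dec hi h]; exact dvd_mul_right _ _⟩
  obtain ⟨j, -, hj⟩ := (Prime.dvd_finsetProd_iff (pm_prime i).prime _).1 h
  have h1 := (pm_prime i).dvd_of_dvd_pow hj
  obtain rfl := pm_inj ((Nat.prime_dvd_prime_iff_eq (pm_prime i) (pm_prime j)).1 h1)
  rw [h0, pow_zero] at hj
  exact (pm_prime i).one_lt.ne' (Nat.dvd_one.1 hj)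

noncomputable def nx : List Prog × ℤ → Option (List Prog × ℤ)
  | ([], _) => none
  | (.inc i :: K, v) => some (K, pm i * v)
  | (.dec i :: K, v) => if (pm i : ℤ) ∣ v then some (K, v / pm i) else some (K, v)
  | (.seq p q :: K, v) => some (p :: q :: K, v)
  | (.loop i p :: K, v) => if (pm i : ℤ) ∣ v then some (p :: .loop i p :: K, v) else some (K, v)

theorem nx_enc {m : ℕ} {K K' : List Prog} {x x' : ℕ → ℕ} (hK : headOK m K)
    (h : pstep (K, x) = some (K', x')) : nx (K, (enc m x : ℤ)) = some (K', (enc m x' : ℤ)) := by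
  have hp : ∀ i, (pm i : ℤ) ≠ 0 := fun i => by exact_mod_cast (pm_prime i).ne_zero
  match K, hK, h with
  | .inc i :: K, hK, h =>
    cases h
    simp [nx, enc_inc hK]
  | .dec i :: K, hK, h =>
    cases h
    by_cases hx : x i = 0
    · have : update x i (x i - 1) = x := by rw [hx, update_eq_self_iff, hx]
      rw [this]
      simp [nx, Int.natCast_dvd_natCast, dvd_enc hK, hx]
    · rw [enc_dec hK hx]
      simp [nx, Int.mul_ediv_cancel_left _ (hp i)]
  | .seq p q :: K, hK, h =>
    cases h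
    rfl
  | .loop i p :: K, hK, h =>
    by_cases hx : x i = 0
    · simp only [pstep, hx, if_true, Option.some.injEq, Prod.mk.injEq] at h
      simp [nx, Int.natCast_dvd_natCast, dvd_enc hK, hx, h.1, h.2.symm]
    · simp only [pstep, hx, if_false, Option.some.injEq, Prod.mk.injEq] at h
      simp [nx, Int.natCast_dvd_natCast, dvd_enc hK, hx, h.1, h.2.symm]

abbrev SR : Type := List Prog × ℕ × ℕ × List Prog × ℕ × ℕ

noncomputable def rules : List Prog → List SR
  | [] => [([], 1, 1, [], 0, 1)]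
  | .inc i :: K => [(.inc i :: K, 0, 1, K, 0, pm i)]
  | .dec i :: K => (.dec i :: K, 0, pm i, K, 0, 1) ::
      (List.range (pm i - 1)).map fun a => (.dec i :: K, a + 1, pm i, K, a + 1, pm i)
  | .seq p q :: K => [(.seq p q :: K, 0, 1, p :: q :: K, 0, 1)]
  | .loop i p :: K => (.loop i p :: K, 0, pm i, p :: .loop i p :: K, 0, pm i) ::
      (List.range (pm i - 1)).map fun a => (.loop i p :: K, a + 1, pm i, K, a + 1, pm i)

theorem not_dvd_aux {p a : ℕ} (h : a < p - 1) (u : ℤ) : ¬ (p : ℤ) ∣ (a + 1 : ℕ) + p * u := by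
  rw [dvd_add_left (dvd_mul_right _ _), Int.natCast_dvd_natCast]
  intro h'
  have := Nat.le_of_dvd (by omega) h'
  omega

theorem rules_nx {K : List Prog} {r : SR} (h : r ∈ rules K) :
    0 < r.2.2.1 ∧ 0 < r.2.2.2.2.2 ∧ ((r.1 = [] ∧ r.2.2.2.1 = []) ∨
      ∀ u : ℤ, nx (r.1, (r.2.1 : ℤ) + r.2.2.1 * u) =
        some (r.2.2.2.1, (r.2.2.2.2.1 : ℤ) + r.2.2.2.2.2 * u)) := by
  have hp : ∀ i, 0 < pm i := fun i => (pm_prime i).pos
  match K, h with
  | [], h =>
    simp only [rules, List.mem_singleton] at h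
    subst h
    simp
  | .inc i :: K, h =>
    simp only [rules, List.mem_singleton] at h
    subst h
    simp [nx, hp]
  | .dec i :: K, h =>
    simp only [rules, List.mem_cons, List.mem_map, List.mem_range] at h
    rcases h with rfl | ⟨a, ha, rfl⟩
    · simp [nx, hp, (hp i).ne']
    · exact ⟨hp i, hp i, Or.inr fun u => if_neg (not_dvd_aux ha u)⟩
  | .seq p q :: K, h =>
    simp only [rules, List.mem_singleton] at h
    subst h
    simp [nx]
  | .loop i p :: K, h =>
    simp only [rules, List.mem_cons, List.mem_map, List.mem_range] at h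
    rcases h with rfl | ⟨a, ha, rfl⟩
    · simp [nx, hp]
    · exact ⟨hp i, hp i, Or.inr fun u => if_neg (not_dvd_aux ha u)⟩

theorem exists_residue {p v : ℕ} (hp : 0 < p) (h : ¬ p ∣ v) :
    ∃ a < p - 1, ∃ u, v = a + 1 + p * u := by
  have h1 := Nat.mod_lt v hp
  have h2 := Nat.mod_add_div v p
  have h3 : v % p ≠ 0 := fun e => h (Nat.dvd_of_mod_eq_zero e)
  exact ⟨v % p - 1, by omega, v / p, by omega⟩

theorem rules_cover {K K' : List Prog} {v v' : ℕ} (h : nx (K, (v : ℤ)) = some (K', (v' : ℤ))) :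
    ∃ r ∈ rules K, r.1 = K ∧ r.2.2.2.1 = K' ∧ ∃ u, v = r.2.1 + r.2.2.1 * u ∧
      v' = r.2.2.2.2.1 + r.2.2.2.2.2 * u := by
  have hp : ∀ i, 0 < pm i := fun i => (pm_prime i).pos
  match K, h with
  | .inc i :: K, h =>
    simp only [nx, Option.some.injEq, Prod.mk.injEq] at h
    refine ⟨_, List.mem_singleton_self _, rfl, h.1, v, by simp, ?_⟩
    simp only [zero_add]
    exact_mod_cast h.2.symm
  | .dec i :: K, h =>
    simp only [nx, Int.natCast_dvd_natCast] at h
    split_ifs at h with h1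
    · obtain ⟨u, rfl⟩ := h1
      simp only [Option.some.injEq, Prod.mk.injEq] at h
      refine ⟨_, List.mem_cons_self, rfl, h.1, u, by simp, ?_⟩
      have := h.2
      simp [(hp i).ne'] at this
      simp [this]
    · simp only [Option.some.injEq, Prod.mk.injEq, Nat.cast_inj] at h
      obtain ⟨a, ha, u, e⟩ := exists_residue (hp i) h1
      exact ⟨_, List.mem_cons_of_mem _ (List.mem_map.2 ⟨a, List.mem_range.2 ha, rfl⟩), rfl, h.1, u,
        e, h.2 ▸ e⟩
  | .seq p q :: K, h =>
    simp only [nx, Option.some.injEq, Prod.mk.injEq, Nat.cast_inj] at h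
    exact ⟨_, List.mem_singleton_self _, rfl, h.1, v, by simp, by simp [h.2]⟩
  | .loop i p :: K, h =>
    simp only [nx, Int.natCast_dvd_natCast] at h
    split_ifs at h with h1
    · obtain ⟨u, rfl⟩ := h1
      simp only [Option.some.injEq, Prod.mk.injEq, Nat.cast_inj] at h
      exact ⟨_, List.mem_cons_self, rfl, h.1, u, by simp, by simp [h.2]⟩
    · simp only [Option.some.injEq, Prod.mk.injEq, Nat.cast_inj] at h
      obtain ⟨a, ha, u, e⟩ := exists_residue (hp i) h1
      exact ⟨_, List.mem_cons_of_mem _ (List.mem_map.2 ⟨a, List.mem_range.2 ha, rfl⟩), rfl, h.1, u,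
        e, h.2 ▸ e⟩

def pcode : Prog → ℕ
  | .inc i => Nat.pair 0 i
  | .dec i => Nat.pair 1 i
  | .seq p q => Nat.pair 2 (Nat.pair (pcode p) (pcode q))
  | .loop i p => Nat.pair 3 (Nat.pair i (pcode p))

theorem pcode_inj : Injective pcode := by
  intro p
  induction p with
  | inc i => intro q h; cases q <;> simp_all [pcode]
  | dec i => intro q h; cases q <;> simp_all [pcode]
  | seq p q ihp ihq =>
    intro r h
    cases r <;> simp only [pcode, Nat.pair_eq_pair] at h
    · omega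
    · omega
    · rw [ihp h.2.1, ihq h.2.2]
    · omega
  | loop i p ih =>
    intro r h
    cases r <;> simp only [pcode, Nat.pair_eq_pair] at h
    · omega
    · omega
    · omega
    · rw [h.2.1, ih h.2.2]

instance : Countable Prog := pcode_inj.countable

def HZ (c : List Prog × ℤ) : Prop := ∃ w, ReflTransGen (fun a b => nx a = some b) c ([], w)

theorem HZ_step {c d : List Prog × ℤ} (h : nx c = some d) : HZ c ↔ HZ d := by
  refine ⟨?_, fun ⟨w, hw⟩ => ⟨w, .head h hw⟩⟩
  rintro ⟨w, hw⟩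
  rcases hw.cases_head with rfl | ⟨e, h1, h2⟩
  · simp [nx] at h
  · rw [h] at h1
    cases h1
    exact ⟨w, h2⟩

theorem pstep_some {K : List Prog} (hK : K ≠ []) (x : ℕ → ℕ) : ∃ d, pstep (K, x) = some d := by
  match K, hK with
  | .inc i :: K, _ => exact ⟨_, rfl⟩
  | .dec i :: K, _ => exact ⟨_, rfl⟩
  | .seq p q :: K, _ => exact ⟨_, rfl⟩
  | .loop i p :: K, _ =>
    simp only [pstep]
    split_ifs <;> exact ⟨_, rfl⟩

theorem exists_rules (p : Prog) : ∃ (Rs : List Rl) (h q m : ℕ), ∀ (x : ℕ → ℕ) (N : ℕ),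
    enc m x ≤ N → (∀ r ∈ Rs, r.2.1 ≤ N ∧ r.2.2.1 ≤ N ∧ r.2.2.2.2.1 ≤ N ∧ r.2.2.2.2.2 ≤ N) →
    (CSat (inst Rs h q (enc m x) N) ↔ ¬ PHalts ([p], x)) := by
  obtain ⟨cd, hcd⟩ := exists_injective_nat (List Prog)
  let L : List (List Prog) := [] :: conts p []
  let m := p.bound
  have hL : ∀ K ∈ L, headOK m K := by
    intro K hK
    rcases List.mem_cons.1 hK with rfl | hK
    · trivial
    · exact conts_headOK m p le_rfl _ _ hK
  have hcl : ∀ c d : Cfg, c.1 ∈ L → pstep c = some d → d.1 ∈ L := by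
    rintro ⟨K, x⟩ d hK hd
    rcases List.mem_cons.1 hK with hK | hK
    · simp only at hK
      subst hK
      simp [pstep] at hd
    · rcases conts_closed p _ _ hK x d hd with h | h
      · exact List.mem_cons_of_mem _ h
      · exact h ▸ List.mem_cons_self
  have hp : [p] ∈ L := List.mem_cons_of_mem _ (self_mem_conts p [])
  let num : SR → Rl := fun r => (cd r.1, r.2.1, r.2.2.1, cd r.2.2.2.1, r.2.2.2.2.1, r.2.2.2.2.2)
  refine ⟨(L.flatMap rules).map num, cd [], cd [p], m, fun x N h1 h2 => ⟨fun h3 h4 => ?_, fun h3 => ?_⟩⟩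
  · obtain ⟨P, p0, p1, p2⟩ := inst_sound h1 h2 h3
    have p3 : ∀ K ∈ L, ∀ r ∈ rules K, ∀ u, P (cd r.2.2.2.1) (r.2.2.2.2.1 + r.2.2.2.2.2 * u) →
        P (cd r.1) (r.2.1 + r.2.2.1 * u) := fun K hK r hr =>
      p1 (num r) (List.mem_map_of_mem (List.mem_flatMap.2 ⟨K, hK, hr⟩))
    have p4 : ∀ v, P (cd []) v := by
      intro v
      induction v with
      | zero => exact p0
      | succ v ih =>
        have := p3 [] List.mem_cons_self _ (List.mem_singleton_self _) v (by simpa using ih)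
        simpa [add_comm] using this
    obtain ⟨z, hz⟩ := h4
    refine p2 ?_
    suffices ∀ c : Cfg, PR c ([], z) → c.1 ∈ L → P (cd c.1) (enc m c.2) from this _ hz hp
    intro c hc
    induction hc using ReflTransGen.head_induction_on with
    | refl => exact fun _ => p4 _
    | @head a b hab _ ih =>
      intro ha
      obtain ⟨r, hr, e1, e2, u, e3, e4⟩ := rules_cover (nx_enc (hL _ ha) (K' := b.1) (x' := b.2) hab)
      have := ih (hcl _ _ ha hab)
      rw [← e2, e4] at this
      rw [← e1, e3]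
      exact p3 _ ha r hr u this
  · have hH : ∀ K v, (∃ K', cd K' = cd K ∧ HZ (K', v)) ↔ HZ (K, v) := fun K v =>
      ⟨fun ⟨K', e, h⟩ => hcd e ▸ h, fun h => ⟨K, rfl, h⟩⟩
    refine inst_complete (fun q => {v | ∃ K, cd K = q ∧ HZ (K, v)}) ⟨[], rfl, 0, .refl⟩ ?_ ?_
    · intro r hr
      obtain ⟨r, hr', rfl⟩ := List.mem_map.1 hr
      obtain ⟨K, -, hr''⟩ := List.mem_flatMap.1 hr'
      obtain ⟨a1, a2, a3⟩ := rules_nx hr''
      refine ⟨a1, a2, fun u => ?_⟩
      simp only [num, Set.mem_ofPred_eq, hH]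
      rcases a3 with ⟨e1, e2⟩ | a3
      · rw [e1, e2]
        exact iff_of_true ⟨_, .refl⟩ ⟨_, .refl⟩
      · exact HZ_step (a3 u)
    · simp only [Set.mem_ofPred_eq, hH]
      rintro ⟨w, hw⟩
      refine h3 ?_
      suffices ∀ c, ReflTransGen (fun a b => nx a = some b) c ([], w) → ∀ d : Cfg, d.1 ∈ L →
          c = (d.1, (enc m d.2 : ℤ)) → PHalts d from this _ hw ([p], x) hp rfl
      intro c hc
      induction hc using ReflTransGen.head_induction_on with
      | refl =>
        rintro ⟨K, y⟩ - e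
        cases e
        exact ⟨y, .refl⟩
      | @head a b hab _ ih =>
        rintro ⟨K, y⟩ hK rfl
        have hne : K ≠ [] := by rintro rfl; simp [nx] at hab
        obtain ⟨d, hd⟩ := pstep_some hne y
        have := nx_enc (hL _ hK) (K' := d.1) (x' := d.2) hd
        simp only at hab
        rw [this] at hab
        obtain ⟨z, hz⟩ := ih d (hcl _ _ hK hd) (Option.some.inj hab).symm
        exact ⟨z, .head hd hz⟩

end Pool.Agent.MP_f23db5_lc
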