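import Pool.Agent.MP_f23db5_lc.Reduce
import Pool.Agent.MP_f23db5_lc.Local

/-! Every language in NP is computable. -/

namespace Pool.Agent.MP_f23db5_lc

open Function Turing

theorem pr_cstep (T : List ((ℕ × List (List ℕ)) × (ℕ × List (List ℕ)))) (n d : ℕ) :
    Primrec (cstep T n d) := by
  have h0 : Primrec fun x : ℕ × List (List ℕ) => (x.1, x.2.map (List.take d)) :=
    Primrec.fst.pair (Primrec.list_map Primrec.snd
      (Primrec.list_take.comp (Primrec.const d) Primrec.snd))
  have h2 : Primrec fun y : ℕ × List (List ℕ) =>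
      ((T.filter fun e => decide (e.1 = y)).headD default).2 := by
    induction T with
    | nil => exact Primrec.const _
    | cons e T ih =>
      refine (Primrec.ite (Primrec.eq.comp (Primrec.const e.1) Primrec.id) (Primrec.const e.2)
        ih).of_eq fun y => ?_
      by_cases h : e.1 = y <;> simp [h]
  have h1 := h2.comp h0
  unfold cstep
  refine (Primrec.fst.comp h1).pair (Primrec.list_map (Primrec.const _) ?_)
  exact Primrec.list_append.comp
    ((Primrec.list_getD []).comp (Primrec.snd.comp (h1.comp Primrec.fst)) Primrec.snd)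
    (Primrec.list_drop.comp (Primrec.const d)
      ((Primrec.list_getD []).comp (Primrec.snd.comp Primrec.fst) Primrec.snd))

theorem pr_eval (p : Polynomial ℕ) : Primrec fun n => p.eval n := by
  induction p using Polynomial.induction_on' with
  | add p q hp hq => simpa using Primrec.nat_add.comp hp hq
  | monomial k a =>
    simp only [Polynomial.eval_monomial]
    exact Primrec.nat_mul.comp (Primrec.const a)
      ((Primrec₂.unpaired'.1 Nat.Primrec.pow).comp Primrec.id (Primrec.const k))

theorem pr_bitsEnc : Primrec (N487b59b3.bitEncode : List Bool → List Bool) := by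
  have : Primrec fun l : List Bool => (l.map fun b => N487b59b3.delimit [b]).flatten :=
    Primrec.list_flatten.comp (Primrec.list_map Primrec.id
      ((Primrec.dom_finite fun b : Bool => N487b59b3.delimit [b]).comp Primrec.snd))
  refine this.of_eq fun l => ?_
  change _ = ((l.map N487b59b3.bitEncode).map N487b59b3.delimit).flatten
  rw [List.map_map]
  rfl

theorem pr_of_tm {α : Type} [Primcodable α] {e : α → List Bool} (he : Primrec e) {f : α → Bool}
    (M : TM2ComputableInPolyTime e (fun b : Bool => [b]) f) : Primrec f := by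
  classical
  have := M.tm.kFin
  have := M.tm.ΛFin
  have := M.tm.σFin
  let A : Set (Σ k, M.tm.Γ k) := (⋃ l, syms (M.tm.m l)) ∪
    (Set.range (fun b => ⟨M.tm.k₀, M.inputAlphabet.symm b⟩) ∪
      Set.range (fun b => ⟨M.tm.k₁, M.outputAlphabet.symm b⟩))
  have hA : A.Finite := (Set.finite_iUnion (fun l => syms_finite _)).union
    ((Set.finite_range _).union (Set.finite_range _))
  obtain ⟨cs, hcs⟩ := Set.countable_iff_exists_injOn.1 hA.countable
  obtain ⟨cc, hcc⟩ := exists_injective_nat (Option M.tm.Λ × M.tm.σ)
  let d := Finset.univ.sup (fun l => depth (M.tm.m l))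
  have hd : ∀ l, depth (M.tm.m l) ≤ d := fun l =>
    Finset.le_sup (f := fun l => depth (M.tm.m l)) (Finset.mem_univ l)
  have hT := windows_finite (Λ := M.tm.Λ) (σ := M.tm.σ) hA d
  let KL : List M.tm.K := Finset.univ.toList
  have hKL : ∀ k, k ∈ KL := fun k => by simp [KL]
  let TL := hT.toFinset.toList
  have hTL : ∀ c, c ∈ TL ↔ (∀ k, (c.stk k).length ≤ d) ∧ Over A c.stk := fun c => by simp [TL]
  let g := cstep (TL.map fun w => (ccode KL cc cs w, ccode KL cc cs (nxt M.tm.m w))) KL.length d
  have hm : ∀ l, syms (M.tm.m l) ⊆ A := fun l x hx => Or.inl (Set.mem_iUnion.2 ⟨l, hx⟩)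
  let c0 : α → TM2.Cfg M.tm.Γ M.tm.Λ M.tm.σ := fun x =>
    initList M.tm (List.map M.inputAlphabet.invFun (e x))
  have hstk : ∀ x k, (((c0 x).stk k).map fun γ => cs ⟨k, γ⟩) =
      if k = M.tm.k₀ then (e x).map fun b => cs ⟨M.tm.k₀, M.inputAlphabet.symm b⟩ else [] := by
    intro x k
    by_cases hk : k = M.tm.k₀
    · subst hk
      simp [c0, initList]
    · simp [c0, initList, hk]
  have hover0 : ∀ x, Over A (c0 x).stk := by
    intro x k γ hγ
    by_cases hk : k = M.tm.k₀
    · subst hk
      simp only [c0, initList, dif_pos] at hγ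
      obtain ⟨b, -, rfl⟩ := List.mem_map.1 hγ
      exact Or.inr (Or.inl ⟨b, rfl⟩)
    · simp [c0, initList, hk] at hγ
  have hover : ∀ x n, Over A ((nxt M.tm.m)^[n] (c0 x)).stk := by
    intro x n
    induction n with
    | zero => exact hover0 x
    | succ n ih => rw [Function.iterate_succ_apply']; exact over_nxt hm ih
  have hiter : ∀ x n, g^[n] (ccode KL cc cs (c0 x)) = ccode KL cc cs ((nxt M.tm.m)^[n] (c0 x)) := by
    intro x n
    induction n with
    | zero => rfl
    | succ n ih =>
      rw [Function.iterate_succ_apply', Function.iterate_succ_apply', ih]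
      exact cstep_ccode hKL hcc hcs hd hTL (hover x n)
  have hs : Primrec fun x : α => ccode KL cc cs (c0 x) := by
    have h1 : Primrec fun x : α => (e x).map fun b => cs ⟨M.tm.k₀, M.inputAlphabet.symm b⟩ :=
      Primrec.list_map he ((Primrec.dom_finite
        fun b : Bool => cs ⟨M.tm.k₀, M.inputAlphabet.symm b⟩).comp Primrec.snd)
    simp only [ccode, hstk]
    refine (Primrec.const (cc (some M.tm.main, M.tm.initialState))).pair ?_
    generalize KL = l
    induction l with
    | nil => exact Primrec.const _
    | cons k l ih =>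
      refine Primrec.list_cons.comp ?_ ih
      beta_reduce
      split_ifs
      · exact h1
      · exact Primrec.const _
  let T : α → ℕ := fun x => M.time.eval (e x).length
  have hT' : Primrec T := (pr_eval _).comp (Primrec.list_length.comp he)
  have hrun : Primrec fun x => g^[T x] (ccode KL cc cs (c0 x)) :=
    Primrec.nat_iterate hT' hs ((pr_cstep _ _ _).comp Primrec.snd)
  obtain ⟨j, hj, hjk⟩ := List.getElem_of_mem (hKL M.tm.k₁)
  have hout : Primrec fun x => decide ((g^[T x] (ccode KL cc cs (c0 x))).2.getD j [] =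
      [cs ⟨M.tm.k₁, M.outputAlphabet.symm true⟩]) :=
    (Primrec.eq.comp ((Primrec.list_getD []).comp (Primrec.snd.comp hrun) (Primrec.const _))
      (Primrec.const _)).decide
  refine hout.of_eq fun x => ?_
  simp only [hiter]
  obtain ⟨⟨n, hn⟩, hn'⟩ := M.outputsFun x
  simp only at hn'
  have h1 := nxt_iter_of_steps M.tm.m n _ _ hn
  have h3 : n ≤ T x := hn'
  obtain ⟨r, hr⟩ := Nat.exists_eq_add_of_le h3
  rw [hr, add_comm, Function.iterate_add_apply]
  change decide ((ccode KL cc cs ((nxt M.tm.m)^[r] ((nxt M.tm.m)^[n] (initList M.tm _)))).2.getD j []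
    = _) = _
  rw [h1, nxt_iter_halt _ rfl]
  have hne : cs ⟨M.tm.k₁, M.outputAlphabet.symm false⟩ ≠ cs ⟨M.tm.k₁, M.outputAlphabet.symm true⟩ := by
    intro h
    have := hcs (Or.inr (Or.inr ⟨false, rfl⟩)) (Or.inr (Or.inr ⟨true, rfl⟩)) h
    simp at this
  simp only [ccode, List.getD_eq_getElem?_getD, List.getElem?_map, List.getElem?_eq_getElem hj, hjk,
    Option.map_some, Option.getD_some, haltList, dif_pos]
  change decide (List.map _ (List.map M.outputAlphabet.invFun [f x]) = _) = _
  cases f x <;> simp [hne]

def allL (n : ℕ) : List (List Bool) :=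
  (fun L => [] :: L.flatMap fun w => [false :: w, true :: w])^[n] [[]]

theorem mem_allL (n : ℕ) : ∀ w : List Bool, w ∈ allL n ↔ w.length ≤ n := by
  induction n with
  | zero => simp [allL]
  | succ n ih =>
    intro w
    unfold allL at ih ⊢
    rw [Function.iterate_succ_apply']
    cases w with
    | nil => simp
    | cons b w => cases b <;> simp [ih]

theorem pr_allL : Primrec allL :=
  Primrec.nat_iterate Primrec.id (Primrec.const _) (pr_cons (Primrec.const _)
    (Primrec.list_flatMap Primrec.snd (by unfold Primrec₂; fun_prop)))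

theorem primrec_of_NP {L : List Bool → Bool} (h : L ∈ N68a2faeb.NP) : Primrec L := by
  obtain ⟨p, R, ⟨M⟩, hL⟩ := h
  have hR : Primrec R := pr_of_tm (e := fun x : List Bool × List Bool =>
    N487b59b3.delimit (N487b59b3.bitEncode x.1) ++ N487b59b3.bitEncode x.2)
    (pr_append (pr_delimit.comp (pr_bitsEnc.comp Primrec.fst)) (pr_bitsEnc.comp Primrec.snd)) M
  have h1 : PrimrecRel fun w x : List Bool => R (x, w) = true :=
    Primrec.eq.comp (hR.comp (Primrec.snd.pair Primrec.fst)) (Primrec.const true)
  have h2 := (h1.exists_mem_list.comp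
    (pr_allL.comp ((pr_eval p).comp Primrec.list_length)) Primrec.id).decide
  refine h2.of_eq fun x => ?_
  rw [Bool.eq_iff_iff, hL]
  simp [mem_allL]

end Pool.Agent.MP_f23db5_lc
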