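import Pool.Agent.MP_f23db5_lc.Machine

/-! The reduction is primitive recursive. -/

namespace Pool.Agent.MP_f23db5_lc

open Function

attribute [fun_prop] Primrec

section
variable {α β γ σ : Type*} [Primcodable α] [Primcodable β] [Primcodable γ] [Primcodable σ]

@[fun_prop] theorem pr_id : Primrec fun a : α => a := Primrec.id
@[fun_prop] theorem pr_const (s : σ) : Primrec fun _ : α => s := Primrec.const s
@[fun_prop] theorem pr_comp {f : β → σ} {g : α → β} (hf : Primrec f) (hg : Primrec g) :
    Primrec fun a => f (g a) := hf.comp hg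
@[fun_prop] theorem pr_fst {f : α → β × γ} (hf : Primrec f) : Primrec fun a => (f a).1 :=
  Primrec.fst.comp hf
@[fun_prop] theorem pr_snd {f : α → β × γ} (hf : Primrec f) : Primrec fun a => (f a).2 :=
  Primrec.snd.comp hf
@[fun_prop] theorem pr_pair {f : α → β} {g : α → γ} (hf : Primrec f) (hg : Primrec g) :
    Primrec fun a => (f a, g a) := hf.pair hg
@[fun_prop] theorem pr_add {f g : α → ℕ} (hf : Primrec f) (hg : Primrec g) :
    Primrec fun a => f a + g a := Primrec.nat_add.comp hf hg
@[fun_prop] theorem pr_append {f g : α → List β} (hf : Primrec f) (hg : Primrec g) :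
    Primrec fun a => f a ++ g a := Primrec.list_append.comp hf hg
@[fun_prop] theorem pr_cons {f : α → β} {g : α → List β} (hf : Primrec f) (hg : Primrec g) :
    Primrec fun a => f a :: g a := Primrec.list_cons.comp hf hg
@[fun_prop] theorem pr_encode {f : α → β} (hf : Primrec f) :
    Primrec fun a => Encodable.encode (f a) := Primrec.encode.comp hf
end

noncomputable instance : Primcodable Lb := Primcodable.ofEquiv _ (Fintype.equivFin Lb)

theorem pr_tcons : Primrec tcons := by
  unfold tcons gad nd
  fun_prop

theorem pr_pcons : Primrec pcons := by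
  unfold pcons nd
  fun_prop

theorem pr_inst (Rs : List Rl) (h q : ℕ) {v N : ℕ → ℕ} (hv : Primrec v) (hN : Primrec N) :
    Primrec fun n => inst Rs h q (v n) (N n) := by
  unfold inst toC
  refine pr_append (pr_append (Primrec.list_flatMap (pr_append (Primrec.list_map
    (Primrec.list_range.comp hN) ?_) (Primrec.const _)) (pr_tcons.comp Primrec.snd))
    (Primrec.list_flatMap ?_ (pr_pcons.comp Primrec.snd))) (Primrec.const _)
  · unfold Primrec₂
    fun_prop
  · fun_prop

def csize (c : Cons) : ℕ :=
  c.foldr (fun x s => Encodable.encode x.1 + Encodable.encode x.2.1 + 1 + s) 0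

def clab (c : Cons) (i j : ℕ) : Lb :=
  c.foldr (fun x s => if Encodable.encode x.1 = i ∧ Encodable.encode x.2.1 = j then x.2.2 ⊓ s else s) ⊤

theorem lt_csize {c : Cons} {x : Nd × Nd × Lb} (h : x ∈ c) :
    Encodable.encode x.1 < csize c ∧ Encodable.encode x.2.1 < csize c := by
  induction c with
  | nil => simp at h
  | cons y c ih =>
    change _ < _ + csize c ∧ _ < _ + csize c
    rcases List.mem_cons.1 h with rfl | h
    · omega
    · have := ih h
      omega

theorem mem_clab {D : Type} {ρ : Lb → Set (D × D)} (h : IsRep alg ρ) (c : Cons) (i j : ℕ)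
    (p : D × D) : p ∈ ρ (clab c i j) ↔
      ∀ x ∈ c, Encodable.encode x.1 = i → Encodable.encode x.2.1 = j → p ∈ ρ x.2.2 := by
  induction c with
  | nil =>
    change p ∈ ρ ⊤ ↔ _
    rw [h.map_top]
    simp
  | cons y c ih =>
    change p ∈ ρ (if _ then _ ⊓ clab c i j else clab c i j) ↔ _
    rw [List.forall_mem_cons, ← ih]
    split_ifs with h1
    · rw [h.map_inf]
      simp [h1]
    · exact ⟨fun h2 => ⟨fun a b => absurd ⟨a, b⟩ h1, h2⟩, fun h2 => h2.2⟩

theorem sat_iff (c : Cons) :
    Satisfiable alg (csize c) (fun i j => clab c i j) ↔ CSat c := by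
  classical
  constructor
  · rintro ⟨D, ρ, hρ, f, hf⟩
    obtain ⟨d⟩ : Nonempty D := by
      by_contra hD
      rw [not_nonempty_iff] at hD
      have : (⊥ : Lb) = ⊤ := hρ.inj (Subsingleton.elim _ _)
      exact absurd this (by decide)
    refine ⟨D, ρ, hρ, fun a => if h : Encodable.encode a < csize c then f ⟨_, h⟩ else d,
      fun x hx => ?_⟩
    obtain ⟨h1, h2⟩ := lt_csize hx
    simp only [dif_pos h1, dif_pos h2]
    exact (mem_clab hρ _ _ _ _).1 (hf ⟨_, h1⟩ ⟨_, h2⟩) x hx rfl rfl
  · rintro ⟨D, ρ, hρ, f, hf⟩
    refine ⟨D, ρ, hρ, fun i => f (Denumerable.ofNat Nd i), fun i j => ?_⟩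
    rw [mem_clab hρ]
    intro x hx h1 h2
    beta_reduce
    rw [← h1, ← h2, Denumerable.ofNat_encode, Denumerable.ofNat_encode]
    exact hf x hx

def bits (code : Lb → ℕ) (c : Cons) : List Bool :=
  N487b59b3.bitEncode ((List.range (csize c)).map fun i =>
    (List.range (csize c)).map fun j => code (clab c i j))

theorem map_range_eq {β : Type} (n : ℕ) (f : ℕ → β) :
    (List.range n).map f = List.ofFn fun i : Fin n => f i :=
  List.ext_getElem (by simp) (by simp)

theorem nsp_bits {code : Lb → ℕ} (hc : Injective code) (c : Cons) :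
    NSP alg code (bits code c) = true ↔ CSat c := by
  rw [← sat_iff]
  simp only [NSP, decide_eq_true_eq, bits, map_range_eq]
  refine ⟨?_, fun h => ⟨_, _, h, rfl⟩⟩
  rintro ⟨n, lab, h1, h2⟩
  have h3 := N487b59b3.bitEncode_injective h2
  obtain rfl : csize c = n := by simpa using congrArg List.length h3
  have : (fun (i j : Fin (csize c)) => clab c i j) = lab := by
    funext i j
    exact hc (congrFun (List.ofFn_injective (congrFun (List.ofFn_injective h3) i)) j)
  rwa [this]

theorem pr_delimit : Primrec N487b59b3.delimit := by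
  have : Primrec fun l : List Bool => l.foldr (fun b s => true :: b :: s) [false] :=
    Primrec.list_foldr (h := fun _ p => true :: p.1 :: p.2) Primrec.id (Primrec.const _)
      (by unfold Primrec₂; fun_prop)
  refine this.of_eq fun l => ?_
  induction l with
  | nil => rfl
  | cons b l ih => simp [N487b59b3.delimit, ← ih]

theorem pr_csize : Primrec csize :=
  Primrec.list_foldr (h := fun _ (p : (Nd × Nd × Lb) × ℕ) =>
    Encodable.encode p.1.1 + Encodable.encode p.1.2.1 + 1 + p.2) Primrec.id (Primrec.const _)
      (by unfold Primrec₂; fun_prop)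

theorem pr_clab : Primrec fun p : Cons × ℕ × ℕ => clab p.1 p.2.1 p.2.2 := by
  have h1 : Primrec fun p : Lb × Lb => p.1 ⊓ p.2 := Primrec.dom_finite _
  refine Primrec.list_foldr (h := fun (p : Cons × ℕ × ℕ) (y : (Nd × Nd × Lb) × Lb) =>
    if Encodable.encode y.1.1 = p.2.1 ∧ Encodable.encode y.1.2.1 = p.2.2 then y.1.2.2 ⊓ y.2
      else y.2) Primrec.fst (Primrec.const _) ?_
  refine Primrec.ite (PrimrecPred.and (Primrec.eq.comp ?_ ?_) (Primrec.eq.comp ?_ ?_))
    (h1.comp (g := fun p : (Cons × ℕ × ℕ) × (Nd × Nd × Lb) × Lb => (p.2.1.2.2, p.2.2)) ?_) ?_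
  all_goals fun_prop

theorem pr_bits (code : Lb → ℕ) : Primrec (bits code) := by
  have h1 : Primrec fun a : Lb => N487b59b3.delimit (N487b59b3.bitEncode (code a)) :=
    Primrec.dom_finite _
  have h2 : Primrec fun c : Cons => ((List.range (csize c)).map fun i => N487b59b3.delimit
      ((List.range (csize c)).map fun j =>
        N487b59b3.delimit (N487b59b3.bitEncode (code (clab c i j)))).flatten).flatten := by
    refine Primrec.list_flatten.comp (Primrec.list_map (Primrec.list_range.comp pr_csize) ?_)
    refine pr_delimit.comp (Primrec.list_flatten.comp (Primrec.list_map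
      (Primrec.list_range.comp (pr_csize.comp Primrec.fst)) ?_))
    exact h1.comp (pr_clab.comp (g := fun p : (Cons × ℕ) × ℕ => (p.1.1, p.1.2, p.2))
      (by fun_prop))
  refine h2.of_eq fun c => ?_
  change _ = (((_ : List (List ℕ)).map N487b59b3.bitEncode).map N487b59b3.delimit).flatten
  simp only [List.map_map]
  congr 2
  funext i
  change _ = N487b59b3.delimit
    (((_ : List ℕ).map N487b59b3.bitEncode).map N487b59b3.delimit).flatten
  simp only [List.map_map]
  rfl

open Nat.Partrec in
theorem not_computable {code : Lb → ℕ} (hc : Injective code) : ¬ Computable (NSP alg code) := by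
  classical
  intro H
  have hg : Primrec₂ fun s n : ℕ =>
      bif (Code.evaln s (Denumerable.ofNat Code n) 0).isSome then 0 else 1 := by
    refine Primrec.cond (Primrec.option_isSome.comp ?_) (Primrec.const 0) (Primrec.const 1)
    exact Code.primrec_evaln.comp ((Primrec.fst.pair ((Primrec.ofNat Code).comp Primrec.snd)).pair
      (Primrec.const 0))
  obtain ⟨p, hp⟩ := exists_search hg
  obtain ⟨Rs, h, q, m, hR⟩ := exists_rules p
  let v : ℕ → ℕ := fun n => enc m fun j => if j = 0 then n else if j = 2 then 1 else 0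
  have hv : Primrec v := by
    simp only [v, enc]
    clear v hR
    induction m with
    | zero => exact Primrec.const 1
    | succ m ih =>
      simp only [Finset.prod_range_succ]
      refine Primrec.nat_mul.comp ih ?_
      by_cases h0 : m = 0
      · simp only [h0, if_true]
        exact (Primrec₂.unpaired'.1 Nat.Primrec.pow).comp (Primrec.const _) Primrec.id
      · simp only [h0, if_false]
        exact Primrec.const _
  obtain ⟨C, hC⟩ : ∃ C, ∀ r ∈ Rs, r.2.1 + r.2.2.1 + r.2.2.2.2.1 + r.2.2.2.2.2 ≤ C := by
    obtain ⟨C, hC⟩ := ((List.finite_toSet Rs).image fun r : Rl =>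
      r.2.1 + r.2.2.1 + r.2.2.2.2.1 + r.2.2.2.2.2).bddAbove
    exact ⟨C, fun r hr => hC ⟨r, hr, rfl⟩⟩
  have h1 : Computable fun n => NSP alg code (bits code (inst Rs h q (v n) (v n + C))) :=
    H.comp ((pr_bits code).comp (pr_inst Rs h q hv (by fun_prop))).to_comp
  have h2 : ∀ c : Code, (Code.eval c 0).Dom ↔
      (!NSP alg code (bits code (inst Rs h q (v (Encodable.encode c))
        (v (Encodable.encode c) + C)))) = true := by
    intro c
    rw [Bool.not_eq_true', ← Bool.not_eq_true, nsp_bits hc,
      hR _ _ (Nat.le_add_right _ _) (fun r hr => by have := hC r hr; omega), not_not, hp]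
    simp only [Denumerable.ofNat_encode, Part.dom_iff_mem, Code.evaln_complete]
    constructor
    · rintro ⟨y, z, e⟩
      exact ⟨z, by simp [Option.mem_def.1 e]⟩
    · rintro ⟨z, hz⟩
      cases e : Code.evaln z c 0 with
      | none => simp [e] at hz
      | some y => exact ⟨y, z, e⟩
  refine ComputablePred.halting_problem 0 (ComputablePred.computable_iff.2 ⟨_,
    Primrec.not.to_comp.comp (h1.comp Computable.encode), funext fun c => propext (h2 c)⟩)

end Pool.Agent.MP_f23db5_lc
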