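import Pool.Agent.MP_f23db5_lc.Defs

/-! The algebra satisfies the axioms; representations from flat connections. -/

namespace Pool.Agent.MP_f23db5_lc

open Function

instance (r s t : Fin 5) : Decidable (Tri r s t) := by unfold Tri; infer_instance

/-- table of the consistent triangles -/
def tri : Fin 5 → Fin 5 → Fin 5 → Bool :=
  ![![![true, false, false, false, false], ![false, true, false, false, false],
      ![false, false, true, false, false], ![false, false, false, true, false],
      ![false, false, false, false, true]],
    ![![false, true, false, false, false], ![true, true, false, false, false],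
      ![false, false, false, true, false], ![false, false, true, true, false],
      ![false, false, false, false, true]],
    ![![false, false, true, false, false], ![false, false, false, true, false],
      ![true, false, true, false, true], ![false, true, false, true, true],
      ![false, false, true, true, true]],
    ![![false, false, false, true, false], ![false, false, true, true, false],
      ![false, true, false, true, true], ![true, true, true, true, true],
      ![false, false, true, true, true]],
    ![![false, false, false, false, true], ![false, false, false, false, true],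
      ![false, false, true, true, true], ![false, false, true, true, true],
      ![true, true, true, true, true]]]

theorem tri_iff : ∀ r s t, Tri r s t ↔ tri r s t = true := by decide

theorem mem_comp {X Y : Finset (Fin 5)} {t : Fin 5} :
    t ∈ alg.comp X Y ↔ ∃ r ∈ X, ∃ s ∈ Y, tri r s t = true := by
  simp [alg, tri_iff]

theorem tri_assoc : ∀ r s u t : Fin 5, (∃ p, tri r s p = true ∧ tri p u t = true) ↔
    ∃ q, tri s u q = true ∧ tri r q t = true := by decide

theorem tri_comm : ∀ r s t : Fin 5, tri r s t = tri s r t := by decide
theorem tri_comm' : ∀ r s t : Fin 5, tri r s t = tri r t s := by decide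
theorem tri_zero : ∀ r t : Fin 5, tri r 0 t = true ↔ r = t := by decide

theorem isRelAlg_alg : IsRelAlg alg where
  comp_assoc x y z := by
    ext t
    simp only [mem_comp]
    constructor
    · rintro ⟨p, ⟨r, hr, s, hs, h1⟩, u, hu, h2⟩
      obtain ⟨q, h3, h4⟩ := (tri_assoc r s u t).1 ⟨p, h1, h2⟩
      exact ⟨r, hr, q, ⟨s, hs, u, hu, h3⟩, h4⟩
    · rintro ⟨r, hr, q, ⟨s, hs, u, hu, h3⟩, h4⟩
      obtain ⟨p, h1, h2⟩ := (tri_assoc r s u t).2 ⟨q, h3, h4⟩
      exact ⟨p, ⟨r, hr, s, hs, h1⟩, u, hu, h2⟩
  sup_comp x y z := by
    ext t
    simp only [mem_comp, Finset.sup_eq_union, Finset.mem_union]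
    constructor
    · rintro ⟨r, hr | hr, h⟩
      · exact Or.inl ⟨r, hr, h⟩
      · exact Or.inr ⟨r, hr, h⟩
    · rintro (⟨r, hr, h⟩ | ⟨r, hr, h⟩)
      · exact ⟨r, Or.inl hr, h⟩
      · exact ⟨r, Or.inr hr, h⟩
  comp_ide x := by
    ext t
    simp only [mem_comp]
    simp [alg, tri_zero]
  conv_conv x := rfl
  conv_sup x y := rfl
  conv_comp x y := by
    ext t
    change t ∈ alg.comp x y ↔ t ∈ alg.comp y x
    simp only [mem_comp]
    constructor
    · rintro ⟨r, hr, s, hs, h⟩
      exact ⟨s, hs, r, hr, by rw [tri_comm, h]⟩
    · rintro ⟨r, hr, s, hs, h⟩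
      exact ⟨s, hs, r, hr, by rw [tri_comm, h]⟩
  tarski x y := by
    rw [sup_eq_right]
    intro t ht
    change t ∈ alg.comp x _ at ht
    rw [mem_comp] at ht
    obtain ⟨r, hr, s, hs, h⟩ := ht
    rw [Finset.mem_compl] at hs ⊢
    intro hy
    exact hs (mem_comp.2 ⟨r, hr, t, hy, by rw [tri_comm', h]⟩)

/-- A labelling of pairs by atoms with the witness property is a representation. -/
theorem isRep_of_at {D : Type} (α : D → D → Fin 5) (h0 : ∀ x y, α x y = 0 ↔ x = y)
    (hs : ∀ x y, α x y = α y x) (ht : ∀ x y z, tri (α x z) (α z y) (α x y) = true)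
    (hw : ∀ x y r s, tri r s (α x y) = true → ∃ z, α x z = r ∧ α z y = s)
    (hne : Nonempty D) :
    IsRep alg (fun X : Finset (Fin 5) => {p : D × D | α p.1 p.2 ∈ X}) where
  inj X Y h := by
    obtain ⟨x⟩ := hne
    ext r
    obtain ⟨z, hz, -⟩ := hw x x r r (by
      rw [(h0 x x).2 rfl, tri_comm', tri_zero])
    have := Set.ext_iff.1 h (x, z)
    simpa [hz] using this
  map_sup X Y := by ext p; simp
  map_inf X Y := by ext p; simp
  map_compl X := by ext p; simp
  map_bot := by ext p; simp
  map_top := by ext p; simp
  map_comp X Y := by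
    ext p
    simp only [Set.mem_ofPred_eq, mem_comp]
    constructor
    · rintro ⟨r, hr, s, hs, h⟩
      obtain ⟨z, h1, h2⟩ := hw _ _ r s h
      exact ⟨z, h1 ▸ hr, h2 ▸ hs⟩
    · rintro ⟨z, h1, h2⟩
      exact ⟨_, h1, _, h2, ht _ _ _⟩
  map_conv X := by
    ext p
    simp only [Set.mem_ofPred_eq]
    rw [hs p.1]
    rfl
  map_ide := by
    ext p
    simp [alg, h0]

/-- A group-valued connection on an oriented graph, flat on triangles. -/
structure Conn (V G : Type) [Group G] where
  up : V → V → Option G
  rk : V → ℕ
  lt : ∀ x y g, up x y = some g → rk x < rk y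
  flat : ∀ x y z a b c, up x y = some c → up y z = some b → up x z = some a → a = b * c

/-- join of the two orientations -/
def sym {G : Type} [Group G] (a b : Option G) : Option G :=
  match a, b with
  | some g, _ => some g
  | none, some g => some g⁻¹
  | none, none => none

namespace Conn

variable {V G : Type} [Group G] (C : Conn V G)

/-- the transport from `x` to `y` -/
def tr (x y : V) : Option G := sym (C.up x y) (C.up y x)

theorem tr_eq_some {x y : V} {g : G} :
    C.tr x y = some g ↔ C.up x y = some g ∨ C.up y x = some g⁻¹ := by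
  unfold tr
  cases h1 : C.up x y with
  | some a =>
    cases h2 : C.up y x with
    | some b => exact absurd (C.lt _ _ _ h1) (not_lt.2 (C.lt _ _ _ h2).le)
    | none => simp [sym]
  | none =>
    cases h2 : C.up y x with
    | some b => simp [sym, inv_eq_iff_eq_inv]
    | none => simp [sym]

theorem tr_symm {x y : V} {g : G} (h : C.tr x y = some g) : C.tr y x = some g⁻¹ := by
  rw [tr_eq_some] at h ⊢
  simpa [or_comm] using h

theorem tr_none {x y : V} (h : C.tr x y = none) : C.tr y x = none := by
  cases h' : C.tr y x with
  | none => rfl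
  | some g => rw [C.tr_symm h'] at h; cases h

theorem tr_self (x : V) : C.tr x x = none := by
  cases h' : C.tr x x with
  | none => rfl
  | some g =>
    rcases C.tr_eq_some.1 h' with h | h <;> exact absurd (C.lt _ _ _ h) (lt_irrefl _)

theorem tr_flat {x y z : V} {a b c : G} (h1 : C.tr x y = some c) (h2 : C.tr y z = some b)
    (h3 : C.tr x z = some a) : a = b * c := by
  rcases C.tr_eq_some.1 h1 with h1 | h1 <;> rcases C.tr_eq_some.1 h2 with h2 | h2 <;>
    rcases C.tr_eq_some.1 h3 with h3 | h3
  · exact C.flat _ _ _ _ _ _ h1 h2 h3
  · have := C.lt _ _ _ h1; have := C.lt _ _ _ h2; have := C.lt _ _ _ h3; omega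
  · rw [C.flat _ _ _ _ _ _ h3 h2 h1]; group
  · have := C.flat _ _ _ _ _ _ h3 h1 h2
    rw [← inv_inv b, this]; group
  · rw [C.flat _ _ _ _ _ _ h1 h3 h2]; group
  · have := C.flat _ _ _ _ _ _ h2 h3 h1
    rw [← inv_inv c, this]; group
  · have := C.lt _ _ _ h1; have := C.lt _ _ _ h2; have := C.lt _ _ _ h3; omega
  · have := C.flat _ _ _ _ _ _ h2 h1 h3
    rw [← inv_inv a, this]; group

end Conn

/-- The free extension by witnesses. -/
inductive Tr (B G : Type) : Type
  | base (b : B) : Tr B G
  | node (u v : Tr B G) (g : G) (k : ℕ) : Tr B G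

section ext

variable {B G : Type} [Group G] (C : Conn B G)

open Classical in
noncomputable def upT : Tr B G → Tr B G → Option G
  | .base i, .base j => C.up i j
  | .node _ _ _ _, .base _ => none
  | x, .node u v g _ =>
      if x = u then some 1 else if x = v then some ((sym (upT v u) (upT u v)).getD g) else none
termination_by structural _ y => y

def rkT : Tr B G → ℕ
  | .base i => C.rk i
  | .node u v _ k => rkT u + rkT v + k + 1

open Classical in
theorem upT_node (x u v : Tr B G) (g : G) (k : ℕ) : upT C x (.node u v g k) =
    if x = u then some 1 else if x = v then some ((sym (upT C v u) (upT C u v)).getD g)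
      else none := by
  cases x <;> rw [upT]

theorem upT_lt : ∀ x y g, upT C x y = some g → rkT C x < rkT C y := by
  intro x y g h
  cases y with
  | base j =>
    cases x with
    | base i => exact C.lt _ _ _ h
    | node => simp [upT] at h
  | node u v g' k =>
    rw [upT_node] at h
    split_ifs at h with h1 h2
    · subst h1; simp only [rkT]; omega
    · subst h2; simp only [rkT]; omega

noncomputable def ext : Conn (Tr B G) G where
  up := upT C
  rk := rkT C
  lt := upT_lt C
  flat x y z a b c h1 h2 h3 := by
    cases z with
    | base k =>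
      cases y with
      | node => simp [upT] at h2
      | base j =>
        cases x with
        | node => simp [upT] at h3
        | base i => exact C.flat _ _ _ _ _ _ h1 h2 h3
    | node u v g k =>
      have hxy := upT_lt C _ _ _ h1
      rw [upT_node] at h2 h3
      split_ifs at h2 h3 with e1 e2 e3 e4 e5 e6
      · subst e1 e2; omega
      · subst e1 e3
        cases h2
        rw [h1] at h3
        simpa [sym] using h3.symm
      · subst e4 e5
        cases h3
        have : upT C y x = none := by
          cases h : upT C y x with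
          | none => rfl
          | some g => have := upT_lt C _ _ _ h; omega
        rw [h1, this] at h2
        simp only [sym, Option.getD_some, Option.some.injEq] at h2
        rw [← h2]; simp
      · subst e4 e6; omega

theorem ext_base (i j : B) : (ext C).tr (.base i) (.base j) = C.tr i j := rfl

open Classical in
theorem ext_node (x u v : Tr B G) (g : G) (k : ℕ) (hk : rkT C x ≤ k) :
    (ext C).tr x (.node u v g k) =
    if x = u then some 1 else if x = v then some (((ext C).tr v u).getD g) else none := by
  have h : upT C (.node u v g k) x = none := by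
    cases h : upT C (.node u v g k) x with
    | none => rfl
    | some g => have := upT_lt C _ _ _ h; simp only [rkT] at this; omega
  change sym (upT C x _) (upT C _ x) = _
  rw [h, upT_node]
  split_ifs <;> rfl

theorem ne_node {x u v : Tr B G} {g : G} {k : ℕ} (hk : rkT C x ≤ k) : x ≠ .node u v g k := by
  rintro rfl
  simp only [rkT] at hk
  omega

theorem ext_both (x y : Tr B G) (g : G) : ∃ w, x ≠ w ∧ y ≠ w ∧ (ext C).tr x w = some 1 ∧
    (y = x ∨ (ext C).tr y w = some (((ext C).tr y x).getD g)) := by
  refine ⟨.node x y g (rkT C x + rkT C y), ne_node C (by omega), ne_node C (by omega), ?_, ?_⟩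
  · rw [ext_node C _ _ _ _ _ (by omega), if_pos rfl]
  · by_cases h : y = x
    · exact Or.inl h
    · rw [ext_node C _ _ _ _ _ (by omega), if_neg h, if_pos rfl]
      exact Or.inr rfl

theorem ext_one {x y : Tr B G} (h : y ≠ x) : ∃ w, x ≠ w ∧ y ≠ w ∧ (ext C).tr x w = some 1 ∧
    (ext C).tr y w = none := by
  refine ⟨.node x x 1 (rkT C x + rkT C y), ne_node C (by omega), ne_node C (by omega), ?_, ?_⟩
  · rw [ext_node C _ _ _ _ _ (by omega), if_pos rfl]
  · rw [ext_node C _ _ _ _ _ (by omega), if_neg h, if_neg h]

theorem ext_zero (x y : Tr B G) : ∃ w, x ≠ w ∧ y ≠ w ∧ (ext C).tr x w = none ∧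
    (ext C).tr y w = none := by
  have h1 : x ≠ .node x x 1 (rkT C x + rkT C y) := ne_node C (by omega)
  have h2 : y ≠ .node x x 1 (rkT C x + rkT C y) := ne_node C (by omega)
  refine ⟨.node (.node x x 1 (rkT C x + rkT C y)) (.node x x 1 (rkT C x + rkT C y)) 1
    (rkT C x + rkT C y), ne_node C (by omega), ne_node C (by omega), ?_, ?_⟩
  · rw [ext_node C _ _ _ _ _ (by omega), if_neg h1, if_neg h1]
  · rw [ext_node C _ _ _ _ _ (by omega), if_neg h2, if_neg h2]

end ext

end Pool.Agent.MP_f23db5_lc
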