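import Pool.Agent.MP_f23db5_lc.Complete

/-! Affine rewriting rules on integers simulated by permutations. -/

namespace Pool.Agent.MP_f23db5_lc

open Function Equiv Cardinal

theorem exists_equiv_fiber {α β γ : Type} (f : α → γ) (g : β → γ)
    (h : ∀ c, #{a // f a = c} = #{b // g b = c}) {a₀ : α} {b₀ : β} (e : g b₀ = f a₀) :
    ∃ E : α ≃ β, (∀ a, g (E a) = f a) ∧ E a₀ = b₀ := by
  classical
  let E : α ≃ β := Equiv.ofFiberEquiv fun c => (Cardinal.eq.1 (h c)).some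
  have hE : ∀ a, g (E a) = f a := fun a => Equiv.ofFiberEquiv_map _ a
  refine ⟨E.trans (Equiv.swap (E a₀) b₀), fun a => ?_, by simp⟩
  rw [Equiv.trans_apply, Equiv.swap_apply_def]
  split_ifs with h1 h2
  · rw [e, ← hE, ← h1, hE]
  · rw [hE, ← e, ← h2, hE]
  · exact hE a

abbrev Om : Type := (Set ℤ × Set ℤ) × ℤ

def pat (c d : ℕ) (o : (Set ℤ × Set ℤ) × Fin d) : Set ℤ := {u | u * d + (o.2 : ℕ) + c ∈ o.1.1}

theorem card_pat (c d : ℕ) [NeZero d] (P : Set ℤ) : #{o // pat c d o = P} = 𝔠 := by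
  refine le_antisymm ((mk_subtype_le _).trans ?_) ?_
  · simp [Cardinal.continuum_mul_nat (NeZero.ne d)]
  · have := mk_le_of_injective (f := fun k : Set ℤ =>
      (⟨(((fun u : ℤ => u * d + c) '' P, k), 0), by ext u; simp [pat, NeZero.ne d]⟩ :
        {o // pat c d o = P})) (fun k k' h => by simpa using h)
    simpa using this

def dec (c d : ℕ) [NeZero d] : ((Set ℤ × Set ℤ) × Fin d) × ℤ ≃ Om :=
  (Equiv.prodAssoc _ _ _).trans (Equiv.prodCongr (Equiv.refl _)
    (((Equiv.prodComm _ _).trans (Int.divModEquiv d).symm).trans (Equiv.addRight (c : ℤ))))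

theorem dec_apply (c d : ℕ) [NeZero d] (o : (Set ℤ × Set ℤ) × Fin d) (u : ℤ) :
    dec c d (o, u) = (o.1, u * d + (o.2 : ℕ) + c) := rfl

def sh (j : ℕ) : Perm Om := Equiv.prodCongr (Equiv.refl _) (Equiv.addRight (j : ℤ))

theorem sh_apply (j : ℕ) (w : Om) : sh j w = (w.1, w.2 + j) := rfl

theorem exists_R (P P' : Set ℤ) {c d c' d' : ℕ} (hd : 0 < d) (hd' : 0 < d')
    (h : ∀ u : ℤ, c + d * u ∈ P ↔ c' + d' * u ∈ P') :
    ∃ R : Perm Om, (∀ w, R (sh d' w) = sh d (R w)) ∧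
      (∀ w, (R w).2 ∈ (R w).1.1 ↔ w.2 ∈ w.1.1) ∧ R ((P', ∅), (c' : ℤ)) = ((P, ∅), (c : ℤ)) := by
  have : NeZero d := ⟨hd.ne'⟩
  have : NeZero d' := ⟨hd'.ne'⟩
  obtain ⟨E, h1, h2⟩ := exists_equiv_fiber (pat c' d') (pat c d)
    (fun Q => by rw [card_pat, card_pat]) (a₀ := ((P', ∅), 0)) (b₀ := ((P, ∅), 0)) (by
      ext u
      simpa [pat, add_comm, mul_comm] using h u)
  obtain ⟨R, hR⟩ : ∃ R : Perm Om, ∀ o u, R (dec c' d' (o, u)) = dec c d (E o, u) :=
    ⟨(dec c' d').symm.trans ((Equiv.prodCongr E (Equiv.refl _)).trans (dec c d)), fun o u => by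
      simp⟩
  refine ⟨R, fun w => ?_, fun w => ?_, ?_⟩
  · obtain ⟨⟨o, u⟩, rfl⟩ := (dec c' d').surjective w
    have : sh d' (dec c' d' (o, u)) = dec c' d' (o, u + 1) := by
      simp only [sh_apply, dec_apply]; congr 1; ring
    rw [this, hR, hR]
    simp only [sh_apply, dec_apply]
    congr 1; ring
  · obtain ⟨⟨o, u⟩, rfl⟩ := (dec c' d').surjective w
    rw [hR]
    exact Set.ext_iff.1 (h1 o) u
  · have : (((P', ∅), (c' : ℤ)) : Om) = dec c' d' (((P', ∅), 0), 0) := by simp [dec_apply]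
    rw [this, hR, h2]
    simp [dec_apply]

/-- a rule `(q, c, d, q', c', d')` links `(q, c + d u)` and `(q', c' + d' u)` -/
abbrev Rl : Type := ℕ × ℕ × ℕ × ℕ × ℕ × ℕ

def rT (r : Rl) : List (Gn × Gn × Gn) :=
  [((0, r.2.2.2.2.2), (2, Encodable.encode r), (3, Encodable.encode r)),
    ((2, Encodable.encode r), (0, r.2.2.1), (3, Encodable.encode r)),
    ((2, Encodable.encode r), (1, 0), (4, Encodable.encode r)),
    ((1, 0), (2, Encodable.encode r), (4, Encodable.encode r))]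

def rQ (r : Rl) : List (Gn × Gn × Gn) :=
  [((0, r.2.2.2.1), (0, r.2.2.2.2.1), (1, Encodable.encode r)),
    ((0, r.1), (0, r.2.1), (2, Encodable.encode r)),
    ((1, Encodable.encode r), (2, Encodable.encode r), (2, Encodable.encode r))]

def inst (Rs : List Rl) (h q v N : ℕ) : Cons :=
  toC (((List.range N).map fun j => ((0, j), (0, 1), (0, j + 1))) ++ Rs.flatMap rT)
    (Rs.flatMap rQ ++ [((0, h), (1, 0), (0, h)), ((0, q), (0, v), (3, 0)), ((3, 0), (1, 0), (4, 0))])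
    (3, 0) (4, 0)

theorem inst_sound {Rs : List Rl} {h q v N : ℕ} (hv : v ≤ N)
    (hN : ∀ r ∈ Rs, r.2.1 ≤ N ∧ r.2.2.1 ≤ N ∧ r.2.2.2.2.1 ≤ N ∧ r.2.2.2.2.2 ≤ N)
    (H : CSat (inst Rs h q v N)) :
    ∃ P : ℕ → ℕ → Prop, P h 0 ∧
      (∀ r ∈ Rs, ∀ u, P r.2.2.2.1 (r.2.2.2.2.1 + r.2.2.2.2.2 * u) → P r.1 (r.2.1 + r.2.2.1 * u)) ∧
      ¬ P q v := by
  obtain ⟨S, σ, ω, h0, hT, hQ, hne⟩ := toC_sound H
  simp only [List.mem_append, List.mem_map, List.mem_range, List.mem_flatMap, or_imp, forall_and,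
    forall_exists_index, and_imp, List.mem_cons, List.not_mem_nil, forall_eq] at hT hQ
  obtain ⟨hT1, hT2⟩ := hT
  obtain ⟨hQ1, q1, q2, q3, -⟩ := hQ
  have hx : ∀ j ≤ N, ∀ s, σ (0, j) s = (σ (0, 1))^[j] s := by
    intro j hj s
    induction j with
    | zero => exact h0 s
    | succ j ih => rw [Function.iterate_succ_apply', ← ih (by omega)]; exact hT1 _ j hj rfl s
  refine ⟨fun a b => σ (1, 0) ((σ (0, 1))^[b] (ω (0, a))) = (σ (0, 1))^[b] (ω (0, a)), q1, ?_, ?_⟩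
  · rintro ⟨a, c, d, a', c', d'⟩ hr u hP
    obtain ⟨n1, n2, n3, n4⟩ := hN _ hr
    have t1 := hT2 _ _ hr (List.mem_cons_self (a := _) (l := _))
    have t2 := hT2 _ _ hr (List.mem_cons_of_mem _ List.mem_cons_self)
    have t3 := hT2 _ _ hr (List.mem_cons_of_mem _ (List.mem_cons_of_mem _ List.mem_cons_self))
    have t4 := hT2 _ _ hr (List.mem_cons_of_mem _ (List.mem_cons_of_mem _
      (List.mem_cons_of_mem _ List.mem_cons_self)))
    have p1 := hQ1 _ _ hr (List.mem_cons_self (a := _) (l := _))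
    have p2 := hQ1 _ _ hr (List.mem_cons_of_mem _ List.mem_cons_self)
    have p3 := hQ1 _ _ hr (List.mem_cons_of_mem _ (List.mem_cons_of_mem _ List.mem_cons_self))
    simp only at t1 t2 t3 t4 p1 p2 p3 n1 n2 n3 n4 hP ⊢
    generalize Encodable.encode (a, c, d, a', c', d') = e at *
    rw [hx _ n3] at p1
    rw [hx _ n1] at p2
    have key : ∀ u, σ (2, e) ((σ (0, 1))^[c' + d' * u] (ω (0, a'))) =
        (σ (0, 1))^[c + d * u] (ω (0, a)) := by
      intro u
      induction u with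
      | zero => simp [p1, p2, p3]
      | succ u ih =>
        rw [show c' + d' * (u + 1) = d' + (c' + d' * u) by ring,
          show c + d * (u + 1) = d + (c + d * u) by ring, Function.iterate_add_apply,
          Function.iterate_add_apply _ d, ← ih, ← hx _ n4, ← t1, t2, hx _ n2]
    rw [← key, ← t3, t4, hP]
  · intro hP
    rw [← hx _ hv, q2, q3] at hP
    exact hne hP.symm

open Classical in
noncomputable def flp : Perm (Om × Bool) :=
  Function.Involutive.toPerm (fun x => (x.1, if x.1.2 ∈ x.1.1.1 then x.2 else !x.2))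
    (fun x => by by_cases h : x.1.2 ∈ x.1.1.1 <;> simp [h])

open Classical in
theorem flp_apply (x : Om × Bool) : flp x = (x.1, if x.1.2 ∈ x.1.1.1 then x.2 else !x.2) := rfl

theorem inst_complete {Rs : List Rl} {h q v N : ℕ} (H : ℕ → Set ℤ) (h0 : 0 ∈ H h)
    (hR : ∀ r ∈ Rs, 0 < r.2.2.1 ∧ 0 < r.2.2.2.2.2 ∧
      ∀ u : ℤ, r.2.1 + r.2.2.1 * u ∈ H r.1 ↔ r.2.2.2.2.1 + r.2.2.2.2.2 * u ∈ H r.2.2.2.1)
    (hv : (v : ℤ) ∉ H q) : CSat (inst Rs h q v N) := by
  have : ∀ r : Rl, ∃ R : Perm Om, r ∈ Rs → (∀ w, R (sh r.2.2.2.2.2 w) = sh r.2.2.1 (R w)) ∧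
      (∀ w, (R w).2 ∈ (R w).1.1 ↔ w.2 ∈ w.1.1) ∧
        R ((H r.2.2.2.1, ∅), (r.2.2.2.2.1 : ℤ)) = ((H r.1, ∅), (r.2.1 : ℤ)) := by
    intro r
    by_cases hr : r ∈ Rs
    · obtain ⟨a, b, c⟩ := hR r hr
      obtain ⟨R, hR⟩ := exists_R _ _ a b c
      exact ⟨R, fun _ => hR⟩
    · exact ⟨1, fun h => absurd h hr⟩
  choose R hR' using this
  obtain ⟨D, hD⟩ : ∃ D : ℕ → Rl, ∀ r, D (Encodable.encode r) = r :=
    ⟨Denumerable.ofNat Rl, Denumerable.ofNat_encode⟩
  let l : Perm Om → Perm (Om × Bool) := fun e => Equiv.prodCongr e (Equiv.refl _)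
  have hl : ∀ e x, l e x = (e x.1, x.2) := fun _ _ => rfl
  let σ : Gn → Perm (Om × Bool) := fun g => match g with
    | (0, j) => l (sh j)
    | (1, _) => flp
    | (2, e) => l (R (D e))
    | (3, e) => l (R (D e)) * l (sh (D e).2.2.2.2.2)
    | (_, e) => flp * l (R (D e))
  let ω : Gn → Om × Bool := fun g => match g with
    | (0, a) => (((H a, ∅), 0), true)
    | (1, e) => (((H (D e).2.2.2.1, ∅), (D e).2.2.2.2.1), true)
    | (2, e) => (((H (D e).1, ∅), (D e).2.1), true)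
    | (3, _) => (((H q, ∅), v), true)
    | _ => (((H q, ∅), v), false)
  refine toC_complete σ ω ?_ ?_ ?_ (by simp [ω])
  · ext x <;> simp [σ, un, hl, sh_apply]
  · simp only [List.mem_append, List.mem_map, List.mem_range, List.mem_flatMap, or_imp, forall_and,
      forall_exists_index, and_imp]
    refine ⟨?_, fun t r hr => ?_⟩
    · rintro _ j - rfl
      refine Equiv.ext fun x => ?_
      simp [σ, hl, sh_apply, add_assoc]
    · obtain ⟨a1, a2, -⟩ := hR' r hr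
      revert t
      simp only [rT, List.mem_cons, List.not_mem_nil, or_false, forall_eq_or_imp, forall_eq, σ,
        hD, true_and]
      refine ⟨Equiv.ext fun x => ?_, Equiv.ext fun x => ?_⟩
      · simp [hl, a1]
      · simp only [Equiv.Perm.mul_apply, hl, flp_apply]
        by_cases hx : x.1.2 ∈ x.1.1.1
        · rw [if_pos hx, if_pos ((a2 _).2 hx)]
        · rw [if_neg hx, if_neg (fun h => hx ((a2 _).1 h))]
  · simp only [List.mem_append, List.mem_flatMap, or_imp, forall_and,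
      forall_exists_index, and_imp, List.mem_cons, List.not_mem_nil, forall_eq]
    refine ⟨fun t r hr => ?_, ?_, ?_, ?_, by simp⟩
    · obtain ⟨-, -, a3⟩ := hR' r hr
      revert t
      simp only [rQ, List.mem_cons, List.not_mem_nil, or_false, forall_eq_or_imp, forall_eq, σ, ω,
        hD, hl, sh_apply, a3]
      simp
    · simp [σ, ω, flp_apply, h0]
    · simp [σ, ω, hl, sh_apply]
    · simp [σ, ω, flp_apply, hv]

end Pool.Agent.MP_f23db5_lc
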